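import Pool.Agent.H.MP_215299_an.KD.Quar

/-! # Growth -/

set_option autoImplicit false

open Complex Metric Set MeasureTheory Filter Topology

namespace H65K

private theorem Grow_omit {h : ℂ → ℂ} (hh : Schl h) {ρ : ℝ} (hρ : 1 < ρ) :
    ∃ w, w ∉ h '' ball 0 1 ∧ ‖w‖ < ρ := by
  by_contra hcon
  push Not at hcon
  have hsub : ball (0 : ℂ) ρ ⊆ h '' ball 0 1 := by
    intro w hw
    by_contra hw'
    have := hcon w hw'
    rw [mem_ball_zero_iff] at hw
    linarith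
  set F : ℂ → ℂ := Function.invFunOn h (ball 0 1) with hF
  have hFl : ∀ z ∈ ball (0 : ℂ) 1, F (h z) = z := fun z hz => hh.inj.leftInvOn_invFunOn hz
  have h0 : (0 : ℂ) ∈ ball (0 : ℂ) 1 := mem_ball_self one_pos
  have hF0 : F 0 = 0 := by
    have := hFl 0 h0
    rwa [hh.zero] at this
  have hd : DifferentiableOn ℂ F (ball 0 ρ) :=
    (diff_inv isOpen_ball hh.diff hh.inj hFl).mono hsub
  have hm : MapsTo F (ball 0 ρ) (closedBall (F 0) 1) := by
    intro w hw
    obtain ⟨z, hz, rfl⟩ := hsub hw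
    rw [hFl z hz, hF0]
    exact ball_subset_closedBall hz
  have h1 := norm_deriv_le_div_of_mapsTo_ball hd hm (by linarith)
  have h2 := (deriv_inv isOpen_ball hh.diff hh.inj hFl h0).2
  rw [hh.zero, hh.one, inv_one] at h2
  rw [h2, norm_one, le_div_iff₀ (by linarith)] at h1
  linarith

/-- PROOF: if `ball 0 ρ ⊆ h '' ball 0 1` with `ρ > 1` then the inverse `F` (`Function.invFunOn`) maps `ball 0 ρ`
holomorphically into `ball 0 1` (`diff_inv`), `F 0 = 0`, `deriv F 0 = 1` (`deriv_inv`), but `|deriv F 0| ≤ 1 / ρ`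
(`Complex.norm_deriv_le_div_of_mapsTo_ball`). So for every `ρ > 1` there is an omitted value of norm `< ρ`. -/
theorem dd_zero {h : ℂ → ℂ} (hh : Schl h) : ((h '' ball 0 1)ᶜ).Nonempty ∧ dd h 0 ≤ 1 := by
  constructor
  · obtain ⟨w, hw, -⟩ := Grow_omit hh (ρ := 2) (by norm_num)
    exact ⟨w, hw⟩
  · by_contra hcon
    push Not at hcon
    obtain ⟨w, hw, hw2⟩ := Grow_omit hh hcon
    have h1 : dd h 0 ≤ dist 0 w := infDist_le_dist_of_mem hw
    rw [dist_zero_left] at h1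
    linarith

/-- PROOF: `shift` and `dd_zero`: `(1 - |z|²) |h'(z)| / 4 ≤ dd h (h z) ≤ |h z| + 1`
(`infDist_le_infDist_add_dist`). -/
theorem deriv_le {h : ℂ → ℂ} (hh : Schl h) {z : ℂ} (hz : z ∈ ball (0 : ℂ) 1) :
    (1 - ‖z‖ ^ 2) * ‖deriv h z‖ ≤ 4 * (‖h z‖ + 1) := by
  obtain ⟨hne, hd⟩ := dd_zero hh
  have h1 := shift hh.diff hh.inj hz
  have h2 : (1 - ‖z‖ ^ 2) * ‖deriv h z‖ / 4 ≤ infDist (h z) (h '' ball 0 1)ᶜ := by
    rw [le_infDist hne]
    intro w hw
    by_contra hlt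
    push Not at hlt
    exact hw (h1 (by rw [mem_ball, dist_comm]; exact hlt))
  have h3 : infDist (h z) (h '' ball 0 1)ᶜ ≤ infDist 0 (h '' ball 0 1)ᶜ + dist (h z) 0 :=
    infDist_le_infDist_add_dist
  rw [dist_zero_right] at h3
  unfold dd at hd
  linarith

/-- PROOF: along a radius, `φ t = h (t e)`, `|e| = 1`, on `[0, b]`, `b < 1`;
`image_norm_le_of_norm_deriv_right_lt_deriv_boundary'` with `B t = 8 t / (1 - t)²`, `B' t = 8 (1 + t) / (1 - t)³`:
if `|φ t| = B t` then by `deriv_le` `|φ'(t)| ≤ 4 (B t + 1) / (1 - t²) < B' t`, since `2 t < 1 + t²`. -/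
theorem growth {h : ℂ → ℂ} (hh : Schl h) {z : ℂ} (hz : z ∈ ball (0 : ℂ) 1) :
    ‖h z‖ ≤ 8 * ‖z‖ / (1 - ‖z‖) ^ 2 := by
  rcases eq_or_ne z 0 with rfl | hz0
  · rw [hh.zero, norm_zero, mul_zero, zero_div]
  have hb0 : 0 < ‖z‖ := norm_pos_iff.mpr hz0
  have hb1 : ‖z‖ < 1 := by rwa [mem_ball_zero_iff] at hz
  set b : ℝ := ‖z‖ with hb
  set e : ℂ := z / b with he
  have hbc : (b : ℂ) ≠ 0 := by exact_mod_cast hb0.ne'
  have hen : ‖e‖ = 1 := by
    rw [he, norm_div, Complex.norm_real, Real.norm_eq_abs, abs_of_pos hb0, ← hb,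
      div_self hb0.ne']
  have hnt : ∀ t ∈ Icc (0 : ℝ) b, ‖(t : ℂ) * e‖ = t := by
    intro t ht
    rw [norm_mul, hen, mul_one, Complex.norm_real, Real.norm_eq_abs, abs_of_nonneg ht.1]
  have hmem : ∀ t ∈ Icc (0 : ℝ) b, (t : ℂ) * e ∈ ball (0 : ℂ) 1 := by
    intro t ht
    rw [mem_ball_zero_iff, hnt t ht]
    linarith [ht.2]
  have hder : ∀ t ∈ Icc (0 : ℝ) b,
      HasDerivAt (fun t : ℝ => h ((t : ℂ) * e)) (deriv h ((t : ℂ) * e) * e) t := by
    intro t ht
    have h1 : HasDerivAt h (deriv h ((t : ℂ) * e)) ((t : ℂ) * e) :=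
      (hh.diff.differentiableAt (isOpen_ball.mem_nhds (hmem t ht))).hasDerivAt
    have h2 : HasDerivAt (fun t : ℝ => (t : ℂ) * e) e t := by
      have := (Complex.ofRealCLM.hasDerivAt (x := t)).mul_const e
      simpa using this
    exact h1.comp t h2
  have hBd : ∀ t : ℝ, t < 1 →
      HasDerivAt (fun t : ℝ => 8 * t / (1 - t) ^ 2) (8 * (1 + t) / (1 - t) ^ 3) t := by
    intro t ht
    have h1 : (1 - t) ≠ 0 := by linarith
    have h2 : HasDerivAt (fun t : ℝ => 8 * t) 8 t := by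
      simpa using (hasDerivAt_id t).const_mul (8 : ℝ)
    have h3 : HasDerivAt (fun t : ℝ => (1 - t) ^ 2) (2 * (1 - t) * (-1)) t := by
      have h5 : HasDerivAt (fun t : ℝ => 1 - t) (-1) t := (hasDerivAt_id t).const_sub 1
      refine (h5.fun_pow 2).congr_deriv ?_
      simp
    have h4 := h2.div h3 (pow_ne_zero 2 h1)
    refine h4.congr_deriv ?_
    field_simp
    ring
  have key := image_norm_le_of_norm_deriv_right_lt_deriv_boundary'
    (f := fun t : ℝ => h ((t : ℂ) * e)) (f' := fun t : ℝ => deriv h ((t : ℂ) * e) * e)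
    (a := 0) (b := b) (B := fun t : ℝ => 8 * t / (1 - t) ^ 2)
    (B' := fun t : ℝ => 8 * (1 + t) / (1 - t) ^ 3)
    (fun t ht => (hder t ht).continuousAt.continuousWithinAt)
    (fun t ht => (hder t ⟨ht.1, ht.2.le⟩).hasDerivWithinAt)
    (by simp [hh.zero])
    (fun t ht => (hBd t (by linarith [ht.2])).continuousAt.continuousWithinAt)
    (fun t ht => (hBd t (by linarith [ht.2])).hasDerivWithinAt)
    (by
      intro t ht heq
      have ht' : t ∈ Icc (0 : ℝ) b := ⟨ht.1, ht.2.le⟩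
      have h1 := deriv_le hh (hmem t ht')
      rw [hnt t ht'] at h1
      have heq' : ‖h ((t : ℂ) * e)‖ = 8 * t / (1 - t) ^ 2 := heq
      rw [heq'] at h1
      change ‖deriv h ((t : ℂ) * e) * e‖ < 8 * (1 + t) / (1 - t) ^ 3
      rw [norm_mul, hen, mul_one]
      have ht0 := ht.1
      have ht1 : 0 < 1 - t := by linarith [ht.2]
      have h2 : 0 < 1 - t ^ 2 := by nlinarith
      have h3 : (1 - t ^ 2) * ‖deriv h ((t : ℂ) * e)‖ <
          (1 - t ^ 2) * (8 * (1 + t) / (1 - t) ^ 3) := by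
        refine lt_of_le_of_lt h1 ?_
        have e1 : (1 - t ^ 2) * (8 * (1 + t) / (1 - t) ^ 3) = 8 * (1 + t) ^ 2 / (1 - t) ^ 2 := by
          field_simp
          ring
        have e2 : 4 * (8 * t / (1 - t) ^ 2 + 1) = (32 * t + 4 * (1 - t) ^ 2) / (1 - t) ^ 2 := by
          field_simp
          ring
        rw [e1, e2]
        apply div_lt_div_of_pos_right _ (by positivity)
        nlinarith [mul_pos ht1 ht1]
      exact lt_of_mul_lt_mul_left h3 h2.le)
  have hfin := key ⟨hb0.le, le_rfl⟩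
  have hze : (b : ℂ) * e = z := by
    rw [he, mul_div_cancel₀ _ hbc]
  simp only [hze] at hfin
  exact hfin

end H65K
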