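import Pool.Agent.H.MP_215299_an.KD.Defs

/-! # Inverse of an injective holomorphic function -/

set_option autoImplicit false

open Complex Metric Set MeasureTheory Filter Topology

namespace H65K

/-- PROOF: `f '' V` is open for every open `V ⊆ U` (`f` is not constant near any point, open mapping
theorem `AnalyticOnNhd.is_constant_or_isOpen` on balls). -/
theorem isOpen_im {f : ℂ → ℂ} {U : Set ℂ} (hU : IsOpen U) (hf : DifferentiableOn ℂ f U)
    (hinj : InjOn f U) : IsOpen (f '' U) := by
  rw [isOpen_iff_mem_nhds]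
  rintro w ⟨z, hz, rfl⟩
  obtain ⟨r, hr, hb⟩ := Metric.isOpen_iff.1 hU z hz
  have han : AnalyticOnNhd ℂ f (ball z r) := (hf.mono hb).analyticOnNhd isOpen_ball
  rcases han.is_constant_or_isOpen (convex_ball z r).isPreconnected with ⟨c, hc⟩ | h
  · exfalso
    have h1 : z + ((r / 2 : ℝ) : ℂ) ∈ ball z r := by
      rw [mem_ball, dist_eq_norm, add_sub_cancel_left, Complex.norm_real, Real.norm_eq_abs,
        abs_of_pos (by positivity)]
      linarith
    have h2 : z ∈ ball z r := mem_ball_self hr
    have h3 := hinj (hb h1) (hb h2) ((hc _ h1).trans (hc _ h2).symm)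
    have h4 : ((r / 2 : ℝ) : ℂ) = 0 := by
      have := h3
      rwa [add_eq_left] at this
    have h5 : r / 2 = 0 := by exact_mod_cast h4
    linarith
  · have h1 := h (ball z r) (Subset.refl _) isOpen_ball
    exact Filter.mem_of_superset (h1.mem_nhds (mem_image_of_mem f (mem_ball_self hr)))
      (image_mono hb)

private theorem ne_cont {f F : ℂ → ℂ} {U : Set ℂ} (hU : IsOpen U) (hf : DifferentiableOn ℂ f U)
    (hinj : InjOn f U) (hF : ∀ z ∈ U, F (f z) = z) {z : ℂ} (hz : z ∈ U) :
    ContinuousAt F (f z) := by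
  rw [ContinuousAt, hF z hz]
  intro N hN
  obtain ⟨V, hVN, hVo, hzV⟩ := _root_.mem_nhds_iff.1 (Filter.inter_mem hN (hU.mem_nhds hz))
  have hVU : V ⊆ U := fun x hx => (hVN hx).2
  have h1 := isOpen_im hVo (hf.mono hVU) (hinj.mono hVU)
  rw [Filter.mem_map]
  refine Filter.mem_of_superset (h1.mem_nhds (mem_image_of_mem f hzV)) ?_
  rintro _ ⟨y, hy, rfl⟩
  show F (f y) ∈ N
  rw [hF y (hVU hy)]
  exact (hVN hy).1

/-- PROOF: `F` is continuous on `f '' U` (`f` is open). The zeros of `deriv f` are isolated (`f` is not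
constant near any point: `AnalyticAt.eventually_eq_zero_or_eventually_ne_zero` for `deriv f`), so near `f z`,
except at `f z` itself, `F` is differentiable (`HasDerivAt.of_local_left_inverse`), and it is continuous
at `f z`: `F` is differentiable at `f z` (`Complex.differentiableOn_compl_singleton_and_continuousAt_iff`). -/
theorem diff_inv {f F : ℂ → ℂ} {U : Set ℂ} (hU : IsOpen U) (hf : DifferentiableOn ℂ f U)
    (hinj : InjOn f U) (hF : ∀ z ∈ U, F (f z) = z) : DifferentiableOn ℂ F (f '' U) := by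
  rintro _ ⟨z, hz, rfl⟩
  apply DifferentiableAt.differentiableWithinAt
  have han : AnalyticAt ℂ f z := (hf.analyticOnNhd hU) z hz
  rcases han.deriv.eventually_eq_zero_or_eventually_ne_zero with h0 | h0
  · exfalso
    obtain ⟨r, hr, hb⟩ := Metric.mem_nhds_iff.1 (Filter.inter_mem h0 (hU.mem_nhds hz))
    have h1 : z + ((r / 2 : ℝ) : ℂ) ∈ ball z r := by
      rw [mem_ball, dist_eq_norm, add_sub_cancel_left, Complex.norm_real, Real.norm_eq_abs,
        abs_of_pos (by positivity)]
      linarith
    have h2 : z ∈ ball z r := mem_ball_self hr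
    have hbU : ball z r ⊆ U := fun x hx => (hb hx).2
    have hc : f (z + ((r / 2 : ℝ) : ℂ)) = f z :=
      isOpen_ball.is_const_of_deriv_eq_zero (convex_ball z r).isPreconnected (hf.mono hbU)
        (fun x hx => (hb hx).1) h1 h2
    have h3 := hinj (hbU h1) (hbU h2) hc
    have h4 : ((r / 2 : ℝ) : ℂ) = 0 := by
      have := h3
      rwa [add_eq_left] at this
    have h5 : r / 2 = 0 := by exact_mod_cast h4
    linarith
  · rw [eventually_nhdsWithin_iff] at h0
    obtain ⟨V, hVN, hVo, hzV⟩ := _root_.mem_nhds_iff.1 (Filter.inter_mem h0 (hU.mem_nhds hz))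
    have hVU : V ⊆ U := fun x hx => (hVN hx).2
    have hVn : ∀ x ∈ V, x ≠ z → deriv f x ≠ 0 := fun x hx hne => (hVN hx).1 hne
    have hop := isOpen_im hVo (hf.mono hVU) (hinj.mono hVU)
    have hnb : f '' V ∈ 𝓝 (f z) := hop.mem_nhds (mem_image_of_mem f hzV)
    have key : DifferentiableOn ℂ F (f '' V) := by
      rw [← Complex.differentiableOn_compl_singleton_and_continuousAt_iff hnb]
      refine ⟨?_, ne_cont hU hf hinj hF hz⟩
      rintro _ ⟨⟨y, hy, rfl⟩, hyz⟩
      apply DifferentiableAt.differentiableWithinAt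
      have hyne : y ≠ z := fun e => hyz (by rw [e]; rfl)
      have hd : HasDerivAt f (deriv f y) (F (f y)) := by
        rw [hF y (hVU hy)]
        exact ((hf y (hVU hy)).differentiableAt (hU.mem_nhds (hVU hy))).hasDerivAt
      refine (HasDerivAt.of_local_left_inverse (ne_cont hU hf hinj hF (hVU hy)) hd
        (hVn y hy hyne) ?_).differentiableAt
      filter_upwards [hop.mem_nhds (mem_image_of_mem f hy)] with w hw
      obtain ⟨x, hx, rfl⟩ := hw
      rw [hF x (hVU hx)]
    exact (key (f z) (mem_image_of_mem f hzV)).differentiableAt hnb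

/-- PROOF: chain rule in `F (f z) = z`. -/
theorem deriv_inv {f F : ℂ → ℂ} {U : Set ℂ} (hU : IsOpen U) (hf : DifferentiableOn ℂ f U)
    (hinj : InjOn f U) (hF : ∀ z ∈ U, F (f z) = z) {z : ℂ} (hz : z ∈ U) :
    deriv f z ≠ 0 ∧ deriv F (f z) = (deriv f z)⁻¹ := by
  have h1 : HasDerivAt f (deriv f z) z := ((hf z hz).differentiableAt (hU.mem_nhds hz)).hasDerivAt
  have h2 : HasDerivAt F (deriv F (f z)) (f z) :=
    ((diff_inv hU hf hinj hF (f z) (mem_image_of_mem f hz)).differentiableAt
      ((isOpen_im hU hf hinj).mem_nhds (mem_image_of_mem f hz))).hasDerivAt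
  have h3 := h2.comp z h1
  have h4 : HasDerivAt (F ∘ f) 1 z := by
    refine (hasDerivAt_id z).congr_of_eventuallyEq ?_
    filter_upwards [hU.mem_nhds hz] with x hx
    exact hF x hx
  have h5 : deriv F (f z) * deriv f z = 1 := h3.unique h4
  have h6 : deriv f z ≠ 0 := fun e => by rw [e, mul_zero] at h5; exact zero_ne_one h5
  exact ⟨h6, eq_inv_of_mul_eq_one_left h5⟩

end H65K
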