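import Pool.Agent.H.MP_215299_an.KD.Area

/-! # The second coefficient -/

set_option autoImplicit false

open Complex Metric Set MeasureTheory Filter Topology

namespace H65K

/-- A square root of a holomorphic function without zeros in the unit disc. -/
theorem Bieb_sqrt {k : ℂ → ℂ} (hk : DifferentiableOn ℂ k (ball 0 1))
    (hne : ∀ z ∈ ball (0 : ℂ) 1, k z ≠ 0) (h0 : k 0 = 1) :
    ∃ q : ℂ → ℂ, DifferentiableOn ℂ q (ball 0 1) ∧ q 0 = 1 ∧
      ∀ z ∈ ball (0 : ℂ) 1, q z ^ 2 = k z := by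
  have hdk : DifferentiableOn ℂ (deriv k) (ball 0 1) := hk.deriv isOpen_ball
  have hlog : DifferentiableOn ℂ (fun z => deriv k z / k z) (ball 0 1) := hdk.div hk hne
  obtain ⟨l, hl0, hl⟩ := hlog.isExactOn_ball.with_val_at 0 0
  have hld : DifferentiableOn ℂ l (ball 0 1) := fun z hz => (hl z hz).differentiableAt.differentiableWithinAt
  have hexp : ∀ z ∈ ball (0 : ℂ) 1, exp (l z) = k z := by
    have hd : DifferentiableOn ℂ (fun z => k z * exp (-l z)) (ball 0 1) :=
      hk.mul (hld.neg.cexp)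
    have hder : EqOn (deriv fun z => k z * exp (-l z)) 0 (ball 0 1) := by
      intro z hz
      have h1 : HasDerivAt k (deriv k z) z :=
        ((hk z hz).differentiableAt (isOpen_ball.mem_nhds hz)).hasDerivAt
      have h2 : HasDerivAt (fun z => k z * exp (-l z))
          (deriv k z * exp (-l z) + k z * (exp (-l z) * -(deriv k z / k z))) z :=
        h1.mul ((hl z hz).neg.cexp)
      rw [h2.deriv, Pi.zero_apply]
      have h3 := hne z hz
      field_simp
      ring
    intro z hz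
    have h5 := IsOpen.is_const_of_deriv_eq_zero isOpen_ball (convex_ball (0 : ℂ) 1).isPreconnected
      hd hder hz (mem_ball_self one_pos)
    simp only [h0, hl0, neg_zero, exp_zero, mul_one] at h5
    rw [exp_neg] at h5
    field_simp at h5
    exact h5.symm
  refine ⟨fun z => exp (l z / 2), (hld.div_const 2).cexp, by simp [hl0], fun z hz => ?_⟩
  rw [← exp_nat_mul, ← hexp z hz]
  congr 1
  push_cast
  ring

/-- `|a₂| ≤ 2`.
PROOF: `k = dslope h 0`, `h z = z k(z)`, `k 0 = 1`, `k` holomorphic and without zeros in the disc, `deriv k 0 =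
deriv (deriv h) 0 / 2`. Let `q` be holomorphic in the disc with `q² = k`, `q 0 = 1` (`q = exp (l / 2)`, `l` a primitive of
`k' / k`: `DifferentiableOn.isExactOn_ball`; or `Complex.exists_continuousOn_pow_eq`); `2 q'(0) = k'(0)`.
`S z = z q(z²)`, `S² = h(z²)`; `S` is injective in the disc: `S z = S w` gives `z² = w²`, and `S (-z) = - S z`, `S z = 0` only
for `z = 0`. With `m z = 1 / q(z²)`, `m 0 = 1`, `1 / S z = z⁻¹ + c z`, `c = dslope m 0`, `c z = (m z - 1) / z` for `z ≠ 0`;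
`m z = 1 - q'(0) z² + O(z³)`, so `deriv c 0 = - q'(0)`. By `area_thm` `|q'(0)| ≤ 1`, `|h''(0)| = 4 |q'(0)|`. -/
theorem bieb {h : ℂ → ℂ} (hh : Schl h) : ‖deriv (deriv h) 0‖ ≤ 4 := by
  have hball : ball (0 : ℂ) 1 ∈ 𝓝 (0 : ℂ) := ball_mem_nhds 0 one_pos
  obtain ⟨k, hk⟩ : ∃ k : ℂ → ℂ, k = dslope h 0 := ⟨_, rfl⟩
  have hkd : DifferentiableOn ℂ k (ball 0 1) := by
    rw [hk]; exact (differentiableOn_dslope hball).2 hh.diff
  have hk0 : k 0 = 1 := by rw [hk, dslope_same, hh.one]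
  have hkz : ∀ z, h z = z * k z := by
    intro z
    have h1 := sub_smul_dslope h 0 z
    rw [hh.zero, sub_zero, sub_zero, smul_eq_mul, ← hk] at h1
    exact h1.symm
  have hkne : ∀ z ∈ ball (0 : ℂ) 1, k z ≠ 0 := by
    intro z hz h0
    by_cases hz0 : z = 0
    · rw [hz0, hk0] at h0
      exact one_ne_zero h0
    · have h1 : h z = h 0 := by rw [hkz z, h0, mul_zero, hh.zero]
      exact hz0 (hh.inj hz (mem_ball_self one_pos) h1)
  obtain ⟨q, hqd, hq0, hqk⟩ := Bieb_sqrt hkd hkne hk0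
  have hqne : ∀ z ∈ ball (0 : ℂ) 1, q z ≠ 0 := by
    intro z hz h0
    apply hkne z hz
    rw [← hqk z hz, h0]
    norm_num
  have hsq : ∀ z ∈ ball (0 : ℂ) 1, z ^ 2 ∈ ball (0 : ℂ) 1 := by
    intro z hz
    rw [mem_ball_zero_iff] at hz ⊢
    rw [norm_pow]
    exact pow_lt_one₀ (norm_nonneg z) hz two_ne_zero
  -- the function `1 / q`
  obtain ⟨n, hn⟩ : ∃ n : ℂ → ℂ, n = fun z => (q z)⁻¹ := ⟨_, rfl⟩
  have hnd : DifferentiableOn ℂ n (ball 0 1) := by rw [hn]; exact hqd.inv hqne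
  obtain ⟨n1, hn1⟩ : ∃ n1 : ℂ → ℂ, n1 = dslope n 0 := ⟨_, rfl⟩
  have hn1d : DifferentiableOn ℂ n1 (ball 0 1) := by
    rw [hn1]; exact (differentiableOn_dslope hball).2 hnd
  have hn1z : ∀ z, z * n1 z = n z - 1 := by
    intro z
    have h1 := sub_smul_dslope n 0 z
    rw [sub_zero, smul_eq_mul, ← hn1] at h1
    rw [h1]
    congr 1
    rw [hn]
    simp [hq0]
  obtain ⟨c, hc⟩ : ∃ c : ℂ → ℂ, c = fun z => z * n1 (z ^ 2) := ⟨_, rfl⟩
  have hn1c : DifferentiableOn ℂ (fun z : ℂ => n1 (z ^ 2)) (ball 0 1) :=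
    hn1d.comp (differentiable_id.pow 2).differentiableOn hsq
  have hcd : DifferentiableOn ℂ c (ball 0 1) := by
    rw [hc]; exact differentiableOn_id.mul hn1c
  have hΨ : ∀ z ∈ ball (0 : ℂ) 1 \ {0}, z⁻¹ + c z = (z * q (z ^ 2))⁻¹ := by
    rintro z ⟨hz, hz0⟩
    have hz0' : z ≠ 0 := hz0
    have h1 := hn1z (z ^ 2)
    have h2 : n (z ^ 2) = (q (z ^ 2))⁻¹ := by rw [hn]
    have h3 : c z = z * n1 (z ^ 2) := by rw [hc]
    rw [h3, mul_inv]
    have h4 : z * n1 (z ^ 2) = z⁻¹ * (z ^ 2 * n1 (z ^ 2)) := by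
      field_simp
    rw [h4, h1, h2]
    ring
  have hinj : InjOn (fun z : ℂ => z⁻¹ + c z) (ball 0 1 \ {0}) := by
    intro z hz w hw hzw
    have h1 : z⁻¹ + c z = w⁻¹ + c w := hzw
    rw [hΨ z hz, hΨ w hw, inv_inj] at h1
    have hz1 := hz.1
    have hw1 := hw.1
    have hz0 : z ≠ 0 := hz.2
    have hw0 : w ≠ 0 := hw.2
    have h2 : h (z ^ 2) = h (w ^ 2) := by
      rw [hkz, hkz, ← hqk _ (hsq z hz1), ← hqk _ (hsq w hw1), ← mul_pow, ← mul_pow, h1]
    have h3 : z ^ 2 = w ^ 2 := hh.inj (hsq z hz1) (hsq w hw1) h2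
    rcases sq_eq_sq_iff_eq_or_eq_neg.1 h3 with h4 | h4
    · exact h4
    · exfalso
      rw [h3] at h1
      have h5 := mul_right_cancel₀ (hqne _ (hsq w hw1)) h1
      rw [h5] at h4
      have h6 : (2 : ℂ) * w = 0 := by linear_combination h4
      rcases mul_eq_zero.1 h6 with h7 | h7
      · norm_num at h7
      · exact hw0 h7
  have harea := area_thm hcd hinj
  -- derivatives
  have hq' : HasDerivAt q (deriv q 0) 0 := ((hqd 0 (mem_ball_self one_pos)).differentiableAt hball).hasDerivAt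
  have hcder : deriv c 0 = -deriv q 0 := by
    have h1 : HasDerivAt (fun z : ℂ => n1 (z ^ 2)) (deriv (fun z : ℂ => n1 (z ^ 2)) 0) 0 :=
      ((hn1c 0 (mem_ball_self one_pos)).differentiableAt hball).hasDerivAt
    have h2 := (hasDerivAt_id (0 : ℂ)).mul h1
    have h3 : deriv c 0 = n1 0 := by
      have h4 : c = (id : ℂ → ℂ) * fun z : ℂ => n1 (z ^ 2) := by rw [hc]; rfl
      rw [h4, h2.deriv]
      simp
    rw [h3, hn1, dslope_same, hn]
    have h5 := hq'.inv (by rw [hq0]; exact one_ne_zero)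
    have h6 : (fun z => (q z)⁻¹) = q⁻¹ := rfl
    rw [h6, h5.deriv, hq0]
    norm_num
  have hk' : deriv k 0 = 2 * deriv q 0 := by
    have h1 : k =ᶠ[𝓝 0] fun z => q z ^ 2 := by
      filter_upwards [hball] with z hz
      exact (hqk z hz).symm
    rw [h1.deriv_eq]
    have h2 := hq'.pow 2
    have h3 : (fun z => q z ^ 2) = q ^ 2 := rfl
    rw [h3, h2.deriv, hq0]
    norm_num
  have hh'' : deriv (deriv h) 0 = 2 * deriv k 0 := by
    have h1 : deriv h =ᶠ[𝓝 0] fun z => k z + z * deriv k z := by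
      filter_upwards [hball] with z hz
      have h2 : HasDerivAt k (deriv k z) z :=
        ((hkd z hz).differentiableAt (isOpen_ball.mem_nhds hz)).hasDerivAt
      have h3 := (hasDerivAt_id z).mul h2
      have h4 : h = (id : ℂ → ℂ) * k := by
        funext w
        exact hkz w
      rw [h4, h3.deriv]
      simp
    rw [h1.deriv_eq]
    have h2 : HasDerivAt k (deriv k 0) 0 :=
      ((hkd 0 (mem_ball_self one_pos)).differentiableAt hball).hasDerivAt
    have h3 : HasDerivAt (deriv k) (deriv (deriv k) 0) 0 :=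
      (((hkd.deriv isOpen_ball) 0 (mem_ball_self one_pos)).differentiableAt hball).hasDerivAt
    have h4 := h2.add ((hasDerivAt_id (0 : ℂ)).mul h3)
    have h5 : (fun z => k z + z * deriv k z) = k + (id : ℂ → ℂ) * deriv k := rfl
    rw [h5, h4.deriv]
    simp
    ring
  rw [hh'', hk', norm_mul, norm_mul]
  rw [hcder, norm_neg] at harea
  have h2 : ‖(2 : ℂ)‖ = 2 := by norm_num
  rw [h2]
  linarith

end H65K
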