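import Pool.Agent.H.MP_215299_an.KD.Defs

/-! # Area theorem: the integral over the annulus -/

set_option autoImplicit false

open Complex Metric Set MeasureTheory Filter Topology
open scoped ENNReal

namespace H65K

private theorem AreaB_polar (p : ℝ × ℝ) : Complex.polarCoord.symm p = circleMap 0 p.1 p.2 := by
  rw [Complex.polarCoord_symm_apply, circleMap_zero, Complex.exp_mul_I, Complex.ofReal_cos,
    Complex.ofReal_sin]

private theorem AreaB_pt (b w d : ℂ) :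
    ‖w‖ ^ 2 + 2 * ((starRingEnd ℂ) d * b).re - ‖d‖ ^ 2 - 2 * (w * b).re ≤
      ‖-(starRingEnd ℂ) w + b‖ ^ 2 := by
  rw [← Complex.normSq_eq_norm_sq, ← Complex.normSq_eq_norm_sq, ← Complex.normSq_eq_norm_sq,
    Complex.normSq_apply, Complex.normSq_apply, Complex.normSq_apply]
  simp only [Complex.mul_re, Complex.add_re, Complex.add_im, Complex.neg_re, Complex.neg_im,
    Complex.conj_re, Complex.conj_im]
  nlinarith [sq_nonneg (b.re - d.re), sq_nonneg (b.im - d.im)]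

private theorem AreaB_inner {c : ℂ → ℂ} (hc : DifferentiableOn ℂ c (ball 0 1)) {ρ : ℝ}
    (h0 : 0 < ρ) (h1 : ρ < 1) :
    ENNReal.ofReal (2 * Real.pi * ((ρ ^ 4)⁻¹ + ‖deriv c 0‖ ^ 2)) ≤
      ∫⁻ θ in Ioo (-Real.pi) Real.pi, ENNReal.ofReal
        (‖-((circleMap 0 ρ θ) ^ 2)⁻¹ + deriv c (circleMap 0 ρ θ)‖ ^ 2) := by
  have hd : DifferentiableOn ℂ (deriv c) (ball 0 1) := hc.deriv isOpen_ball
  have hz0 : ∀ θ, circleMap 0 ρ θ ≠ 0 := fun θ => circleMap_ne_center h0.ne'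
  have hzn : ∀ θ, ‖circleMap 0 ρ θ‖ = ρ := fun θ => by
    rw [norm_circleMap_zero, abs_of_pos h0]
  have hzb : ∀ θ, circleMap 0 ρ θ ∈ ball (0 : ℂ) 1 := fun θ => by
    rw [mem_ball_zero_iff, hzn]
    exact h1
  have hcm := continuous_circleMap 0 ρ
  have hcd : Continuous fun θ => deriv c (circleMap 0 ρ θ) :=
    hd.continuousOn.comp_continuous hcm hzb
  obtain ⟨u, hu⟩ : ∃ u : ℝ → ℝ, u = fun θ =>
    ‖-((circleMap 0 ρ θ) ^ 2)⁻¹ + deriv c (circleMap 0 ρ θ)‖ ^ 2 := ⟨_, rfl⟩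
  have huc : Continuous u := by
    rw [hu]
    have h2 : Continuous fun θ => ((circleMap 0 ρ θ) ^ 2)⁻¹ :=
      (hcm.pow 2).inv₀ fun θ => pow_ne_zero 2 (hz0 θ)
    exact ((h2.neg.add hcd).norm).pow 2
  obtain ⟨h, hh⟩ : ∃ h : ℂ → ℂ, h = fun z => (((ρ ^ 4)⁻¹ : ℝ) : ℂ) +
      2 * ((starRingEnd ℂ) (deriv c 0) * deriv c z) - ((‖deriv c 0‖ ^ 2 : ℝ) : ℂ) -
      2 * (z ^ 2 / ((ρ ^ 4 : ℝ) : ℂ) * deriv c z) := ⟨_, rfl⟩
  have hhd : DifferentiableOn ℂ h (ball 0 1) := by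
    rw [hh]
    fun_prop
  have hhc : Continuous fun θ => h (circleMap 0 ρ θ) :=
    hhd.continuousOn.comp_continuous hcm hzb
  have hre : ∀ z, (h z).re = (ρ ^ 4)⁻¹ + 2 * ((starRingEnd ℂ) (deriv c 0) * deriv c z).re -
      ‖deriv c 0‖ ^ 2 - 2 * (z ^ 2 / ((ρ ^ 4 : ℝ) : ℂ) * deriv c z).re := by
    intro z
    have h2 : ∀ w : ℂ, (2 * w).re = 2 * w.re := fun w => by
      rw [Complex.mul_re]
      simp
    rw [hh]
    simp only [Complex.add_re, Complex.sub_re, Complex.ofReal_re, h2]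
  have hle : ∀ θ, (h (circleMap 0 ρ θ)).re ≤ u θ := by
    intro θ
    obtain ⟨z, hz⟩ : ∃ z, z = circleMap 0 ρ θ := ⟨_, rfl⟩
    have hzz : ‖z‖ = ρ := by rw [hz, hzn]
    have hz00 : z ≠ 0 := by rw [hz]; exact hz0 θ
    have hρ4 : ((ρ ^ 4 : ℝ) : ℂ) ≠ 0 := by
      rw [Complex.ofReal_ne_zero]
      positivity
    have hcj : (z ^ 2)⁻¹ = (starRingEnd ℂ) (z ^ 2 / ((ρ ^ 4 : ℝ) : ℂ)) := by
      rw [map_div₀, Complex.conj_ofReal, map_pow, inv_eq_iff_eq_inv, inv_div, eq_div_iff]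
      · rw [← mul_pow, Complex.mul_conj, Complex.normSq_eq_norm_sq, hzz]
        push_cast
        ring
      · exact pow_ne_zero 2 (by rwa [Ne, map_eq_zero])
    have hnw : ‖z ^ 2 / ((ρ ^ 4 : ℝ) : ℂ)‖ ^ 2 = (ρ ^ 4)⁻¹ := by
      rw [norm_div, norm_pow, hzz, Complex.norm_real, Real.norm_of_nonneg (by positivity)]
      field_simp
    have h3 := AreaB_pt (deriv c z) (z ^ 2 / ((ρ ^ 4 : ℝ) : ℂ)) (deriv c 0)
    rw [hnw, ← hcj] at h3
    rw [hu, hre]
    show _ ≤ ‖-((circleMap 0 ρ θ) ^ 2)⁻¹ + deriv c (circleMap 0 ρ θ)‖ ^ 2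
    rw [← hz]
    exact h3
  have hpi : -Real.pi ≤ Real.pi := by linarith [Real.pi_pos]
  have hper : Function.Periodic (fun θ => (h (circleMap 0 ρ θ)).re) (2 * Real.pi) := by
    intro θ
    show (h (circleMap 0 ρ (θ + 2 * Real.pi))).re = _
    rw [periodic_circleMap 0 ρ θ]
  have hint : ∫ θ in (-Real.pi)..Real.pi, (h (circleMap 0 ρ θ)).re =
      2 * Real.pi * ((ρ ^ 4)⁻¹ + ‖deriv c 0‖ ^ 2) := by
    have e1 := hper.intervalIntegral_add_eq (-Real.pi) 0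
    rw [show -Real.pi + 2 * Real.pi = Real.pi by ring, zero_add] at e1
    rw [e1]
    have e2 : ∫ θ in (0 : ℝ)..2 * Real.pi, (h (circleMap 0 ρ θ)).re =
        (∫ θ in (0 : ℝ)..2 * Real.pi, h (circleMap 0 ρ θ)).re :=
      Complex.reCLM.intervalIntegral_comp_comm (hhc.intervalIntegrable _ _)
    rw [e2]
    have e3 : Real.circleAverage h 0 ρ = h 0 := by
      refine DiffContOnCl.circleAverage ?_
      rw [abs_of_pos h0]
      refine DifferentiableOn.diffContOnCl ?_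
      rw [closure_ball _ h0.ne']
      exact hhd.mono (closedBall_subset_ball h1)
    rw [Real.circleAverage_def] at e3
    have h2pi : (2 * Real.pi) ≠ 0 := by positivity
    have e4 : ∫ θ in (0 : ℝ)..2 * Real.pi, h (circleMap 0 ρ θ) = (2 * Real.pi) • h 0 := by
      rw [← e3, smul_smul, mul_inv_cancel₀ h2pi, one_smul]
    rw [e4, Complex.smul_re, smul_eq_mul, hre]
    have e5 : ((starRingEnd ℂ) (deriv c 0) * deriv c 0).re = ‖deriv c 0‖ ^ 2 := by
      rw [mul_comm, Complex.mul_conj, Complex.ofReal_re, Complex.normSq_eq_norm_sq]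
    rw [e5]
    simp only [ne_eq, OfNat.ofNat_ne_zero, not_false_eq_true, zero_pow, zero_div, zero_mul,
      Complex.zero_re, mul_zero, sub_zero]
    ring
  have hui : IntegrableOn u (Ioo (-Real.pi) Real.pi) :=
    (huc.integrableOn_Icc).mono_set Ioo_subset_Icc_self
  have hfin : ∫⁻ θ in Ioo (-Real.pi) Real.pi, ENNReal.ofReal (u θ) =
      ENNReal.ofReal (∫ θ in (-Real.pi)..Real.pi, u θ) := by
    rw [intervalIntegral.integral_of_le hpi, integral_Ioc_eq_integral_Ioo]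
    refine (ofReal_integral_eq_lintegral_ofReal hui (Eventually.of_forall fun θ => ?_)).symm
    rw [hu]
    show 0 ≤ ‖-((circleMap 0 ρ θ) ^ 2)⁻¹ + deriv c (circleMap 0 ρ θ)‖ ^ 2
    positivity
  have hgoal : ∫⁻ θ in Ioo (-Real.pi) Real.pi, ENNReal.ofReal
      (‖-((circleMap 0 ρ θ) ^ 2)⁻¹ + deriv c (circleMap 0 ρ θ)‖ ^ 2) =
      ∫⁻ θ in Ioo (-Real.pi) Real.pi, ENNReal.ofReal (u θ) := by rw [hu]
  rw [hgoal, hfin, ← hint]
  refine ENNReal.ofReal_le_ofReal ?_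
  exact intervalIntegral.integral_mono_on hpi
    ((Complex.continuous_re.comp hhc).intervalIntegrable _ _) (huc.intervalIntegrable _ _)
    fun θ _ => hle θ

private theorem AreaB_outer (A : ℝ) {r : ℝ} (hr : r ∈ Ioo (0 : ℝ) 1) :
    ∫ ρ in r..1, ρ * (2 * Real.pi * ((ρ ^ 4)⁻¹ + A ^ 2)) =
      Real.pi * (1 / r ^ 2 - 1) + Real.pi * A ^ 2 * (1 - r ^ 2) := by
  have hr0 := hr.1
  have hpos : ∀ x ∈ uIcc r 1, x ≠ 0 := by
    intro x hx
    rw [uIcc_of_le hr.2.le] at hx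
    exact (hr0.trans_le hx.1).ne'
  have h1 : ∀ x ∈ uIcc r 1, HasDerivAt (fun x : ℝ => Real.pi * (-(x ^ 2)⁻¹ + A ^ 2 * x ^ 2))
      (x * (2 * Real.pi * ((x ^ 4)⁻¹ + A ^ 2))) x := by
    intro x hx
    have hx0 := hpos x hx
    have h2 : HasDerivAt (fun x : ℝ => x ^ 2) (2 * x) x := by
      simpa using hasDerivAt_pow 2 x
    have h3 := ((h2.inv (pow_ne_zero 2 hx0)).neg.add (h2.const_mul (A ^ 2))).const_mul Real.pi
    refine h3.congr_deriv ?_
    field_simp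
  rw [intervalIntegral.integral_eq_sub_of_hasDerivAt h1]
  · rw [one_pow, inv_one, one_div]
    ring
  · refine ContinuousOn.intervalIntegrable ?_
    refine continuousOn_id.mul (continuousOn_const.mul (ContinuousOn.add ?_ continuousOn_const))
    exact (continuousOn_pow 4).inv₀ fun x hx => pow_ne_zero 4 (hpos x hx)

/-- PROOF: polar coordinates. For `r < ρ < 1` the derivative at `ρ e^{iθ}` is `a + b`, `a = - ρ^{-2} e^{-2iθ}`,
`b = deriv c (ρ e^{iθ})`; `∫_0^{2π} |a + b|² = ∫ |a|² + ∫ |b|² + 2 Re ∫ conj(a) b`, and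
`∫ conj(a) b dθ = - ρ^{-2} ∫ e^{2iθ} c'(ρ e^{iθ}) dθ = 0` (circle integral of the holomorphic function `z c'(z)`), and
`∫ |b|² ≥ 2π |c'(0)|²` (mean value property and Cauchy-Schwarz; or `∫ |b - c'(0)|² ≥ 0` and the mean value
property). So the integral over the circle is at least `2π (ρ^{-4} + |c'(0)|²)`; integrate `ρ dρ` over `(r, 1)`. -/
theorem areaB {c : ℂ → ℂ} (hc : DifferentiableOn ℂ c (ball 0 1)) {r : ℝ} (hr : r ∈ Ioo (0 : ℝ) 1) :
    ENNReal.ofReal (Real.pi * (1 / r ^ 2 - 1) + Real.pi * ‖deriv c 0‖ ^ 2 * (1 - r ^ 2)) ≤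
      ∫⁻ z in {z : ℂ | r < ‖z‖ ∧ ‖z‖ < 1},
        ENNReal.ofReal (‖deriv (fun z : ℂ => z⁻¹ + c z) z‖ ^ 2) := by
  have hd : DifferentiableOn ℂ (deriv c) (ball 0 1) := hc.deriv isOpen_ball
  have hΩ : MeasurableSet {z : ℂ | r < ‖z‖ ∧ ‖z‖ < 1} :=
    ((isOpen_lt continuous_const continuous_norm).inter
      (isOpen_lt continuous_norm continuous_const)).measurableSet
  have hsub : Ioo r 1 ×ˢ Ioo (-Real.pi) Real.pi ⊆ Complex.polarCoord.target := by
    rintro ⟨a, b⟩ ⟨h1, h2⟩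
    exact ⟨hr.1.trans h1.1, h2⟩
  -- the integrand in polar coordinates
  have hG : ∀ p ∈ Ioo r 1 ×ˢ Ioo (-Real.pi) Real.pi,
      ENNReal.ofReal p.1 • ({z : ℂ | r < ‖z‖ ∧ ‖z‖ < 1}.indicator (fun z => ENNReal.ofReal
        (‖deriv (fun z : ℂ => z⁻¹ + c z) z‖ ^ 2)) (Complex.polarCoord.symm p)) =
      ENNReal.ofReal p.1 * ENNReal.ofReal
        (‖-((circleMap 0 p.1 p.2) ^ 2)⁻¹ + deriv c (circleMap 0 p.1 p.2)‖ ^ 2) := by
    rintro ⟨a, b⟩ ⟨h1, h2⟩
    have ha0 : 0 < a := hr.1.trans h1.1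
    have hn : ‖circleMap 0 a b‖ = a := by rw [norm_circleMap_zero, abs_of_pos ha0]
    have hz0 : circleMap 0 a b ≠ 0 := circleMap_ne_center ha0.ne'
    have hzb : circleMap 0 a b ∈ ball (0 : ℂ) 1 := by
      rw [mem_ball_zero_iff, hn]
      exact h1.2
    have hder : deriv (fun z : ℂ => z⁻¹ + c z) (circleMap 0 a b) =
        -((circleMap 0 a b) ^ 2)⁻¹ + deriv c (circleMap 0 a b) :=
      ((hasDerivAt_inv hz0).add
        (hc.differentiableAt (isOpen_ball.mem_nhds hzb)).hasDerivAt).deriv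
    rw [AreaB_polar, Set.indicator_of_mem, smul_eq_mul, hder]
    exact ⟨by rw [hn]; exact h1.1, by rw [hn]; exact h1.2⟩
  have hcont : ContinuousOn (fun p : ℝ × ℝ => ENNReal.ofReal p.1 * ENNReal.ofReal
      (‖-((circleMap 0 p.1 p.2) ^ 2)⁻¹ + deriv c (circleMap 0 p.1 p.2)‖ ^ 2))
      (Ioo r 1 ×ˢ Ioo (-Real.pi) Real.pi) := by
    have h1 : Continuous fun p : ℝ × ℝ => circleMap 0 p.1 p.2 := by
      unfold circleMap
      fun_prop
    have h2 : ContinuousOn (fun p : ℝ × ℝ => deriv c (circleMap 0 p.1 p.2))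
        (Ioo r 1 ×ˢ Ioo (-Real.pi) Real.pi) := by
      refine hd.continuousOn.comp h1.continuousOn ?_
      rintro ⟨a, b⟩ ⟨h3, h4⟩
      rw [mem_ball_zero_iff]
      show ‖circleMap 0 a b‖ < 1
      rw [norm_circleMap_zero, abs_of_pos (hr.1.trans h3.1)]
      exact h3.2
    have h5 : ContinuousOn (fun p : ℝ × ℝ => ((circleMap 0 p.1 p.2) ^ 2)⁻¹)
        (Ioo r 1 ×ˢ Ioo (-Real.pi) Real.pi) := by
      refine (h1.pow 2).continuousOn.inv₀ ?_
      rintro ⟨a, b⟩ ⟨h3, h4⟩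
      exact pow_ne_zero 2 (circleMap_ne_center (hr.1.trans h3.1).ne')
    have h6 : ContinuousOn (fun p : ℝ × ℝ => ENNReal.ofReal (p.1 *
        (‖-((circleMap 0 p.1 p.2) ^ 2)⁻¹ + deriv c (circleMap 0 p.1 p.2)‖ ^ 2)))
        (Ioo r 1 ×ˢ Ioo (-Real.pi) Real.pi) :=
      ENNReal.continuous_ofReal.comp_continuousOn
        (continuous_fst.continuousOn.mul (((h5.neg.add h2).norm).pow 2))
    refine h6.congr ?_
    rintro ⟨a, b⟩ ⟨h3, h4⟩
    exact (ENNReal.ofReal_mul (hr.1.trans h3.1).le).symm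
  calc ENNReal.ofReal (Real.pi * (1 / r ^ 2 - 1) + Real.pi * ‖deriv c 0‖ ^ 2 * (1 - r ^ 2))
      = ∫⁻ ρ in Ioo r 1, ENNReal.ofReal (ρ * (2 * Real.pi * ((ρ ^ 4)⁻¹ + ‖deriv c 0‖ ^ 2))) := by
        rw [← AreaB_outer ‖deriv c 0‖ hr, intervalIntegral.integral_of_le hr.2.le,
          integral_Ioc_eq_integral_Ioo]
        refine ofReal_integral_eq_lintegral_ofReal ?_ ?_
        · refine IntegrableOn.mono_set (t := Icc r 1) (ContinuousOn.integrableOn_Icc ?_)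
            Ioo_subset_Icc_self
          refine continuousOn_id.mul (continuousOn_const.mul
            (ContinuousOn.add ?_ continuousOn_const))
          exact (continuousOn_pow 4).inv₀ fun x hx => pow_ne_zero 4 (hr.1.trans_le hx.1).ne'
        · refine (ae_restrict_iff' measurableSet_Ioo).2 (Eventually.of_forall fun x hx => ?_)
          have hx0 : 0 < x := hr.1.trans hx.1
          show 0 ≤ x * (2 * Real.pi * ((x ^ 4)⁻¹ + ‖deriv c 0‖ ^ 2))
          have := Real.pi_pos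
          positivity
    _ ≤ ∫⁻ ρ in Ioo r 1, ∫⁻ θ in Ioo (-Real.pi) Real.pi, ENNReal.ofReal ρ * ENNReal.ofReal
        (‖-((circleMap 0 ρ θ) ^ 2)⁻¹ + deriv c (circleMap 0 ρ θ)‖ ^ 2) := by
        refine setLIntegral_mono' measurableSet_Ioo fun ρ hρ => ?_
        have hρ0 : 0 < ρ := hr.1.trans hρ.1
        rw [ENNReal.ofReal_mul hρ0.le, lintegral_const_mul' _ _ ENNReal.ofReal_ne_top]
        exact mul_le_mul_right (AreaB_inner hc hρ0 hρ.2) _
    _ = ∫⁻ p in Ioo r 1 ×ˢ Ioo (-Real.pi) Real.pi, ENNReal.ofReal p.1 * ENNReal.ofReal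
        (‖-((circleMap 0 p.1 p.2) ^ 2)⁻¹ + deriv c (circleMap 0 p.1 p.2)‖ ^ 2) := by
        have h1 := hcont.aemeasurable (μ := (volume : Measure (ℝ × ℝ)))
          (measurableSet_Ioo.prod measurableSet_Ioo)
        rw [Measure.volume_eq_prod, ← Measure.prod_restrict] at h1 ⊢
        rw [lintegral_prod _ h1]
    _ = ∫⁻ p in Ioo r 1 ×ˢ Ioo (-Real.pi) Real.pi, ENNReal.ofReal p.1 •
        ({z : ℂ | r < ‖z‖ ∧ ‖z‖ < 1}.indicator (fun z => ENNReal.ofReal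
        (‖deriv (fun z : ℂ => z⁻¹ + c z) z‖ ^ 2)) (Complex.polarCoord.symm p)) :=
        (setLIntegral_congr_fun (measurableSet_Ioo.prod measurableSet_Ioo) hG).symm
    _ ≤ ∫⁻ p in Complex.polarCoord.target, ENNReal.ofReal p.1 •
        ({z : ℂ | r < ‖z‖ ∧ ‖z‖ < 1}.indicator (fun z => ENNReal.ofReal
        (‖deriv (fun z : ℂ => z⁻¹ + c z) z‖ ^ 2)) (Complex.polarCoord.symm p)) :=
        lintegral_mono_set hsub
    _ = ∫⁻ z in {z : ℂ | r < ‖z‖ ∧ ‖z‖ < 1},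
        ENNReal.ofReal (‖deriv (fun z : ℂ => z⁻¹ + c z) z‖ ^ 2) := by
        exact (Complex.lintegral_comp_polarCoord_symm _).trans (lintegral_indicator hΩ _)

end H65K
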