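import Pool.Agent.H.MP_215299_an.KD.Defs

/-! # The area of an ellipse, and change of variables -/

set_option autoImplicit false

open Complex Metric Set MeasureTheory Filter Topology
open scoped ENNReal

namespace H65K

/-- the real-linear map `LL a` -/
private noncomputable def VolL_map (a : ℂ) : ℂ →ₗ[ℝ] ℂ where
  toFun w := LL a w
  map_add' x y := by
    unfold LL
    rw [map_add]
    ring
  map_smul' c x := by
    unfold LL
    simp only [RingHom.id_apply, Complex.real_smul, map_mul, Complex.conj_ofReal]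
    ring

private theorem VolL_det (a : ℂ) : LinearMap.det (VolL_map a) = 1 - ‖a‖ ^ 2 := by
  have e : ∀ w, VolL_map a w = LL a w := fun _ => rfl
  rw [← LinearMap.det_toMatrix Complex.basisOneI, Matrix.det_fin_two, LinearMap.toMatrix_apply,
    LinearMap.toMatrix_apply, LinearMap.toMatrix_apply, LinearMap.toMatrix_apply]
  simp only [Complex.coe_basisOneI, Complex.coe_basisOneI_repr, Matrix.cons_val_zero,
    Matrix.cons_val_one, e, LL]
  rw [← Complex.normSq_eq_norm_sq, Complex.normSq_apply]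
  simp
  ring

/-- PROOF: the real-linear map `LL a` has determinant `1 - |a|²` (matrix in the basis `1, I`);
`Measure.addHaar_preimage_linearMap`, translation invariance, area of a disc (`Complex.volume_closedBall`). -/
theorem volLL {a : ℂ} (ha : ‖a‖ < 1) (b : ℂ) {R : ℝ} (hR : 0 ≤ R) :
    volume {w : ℂ | ‖LL a (w - b)‖ ≤ R} = ENNReal.ofReal (Real.pi * R ^ 2 / (1 - ‖a‖ ^ 2)) := by
  have h0 : 0 < 1 - ‖a‖ ^ 2 := by
    have := norm_nonneg a
    nlinarith
  have hd : LinearMap.det (VolL_map a) ≠ 0 := by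
    rw [VolL_det]
    exact h0.ne'
  have h1 : {w : ℂ | ‖LL a (w - b)‖ ≤ R} =
      (fun w => w + -b) ⁻¹' (VolL_map a ⁻¹' closedBall 0 R) := by
    ext w
    simp only [mem_setOf_eq, mem_preimage, mem_closedBall_zero_iff, ← sub_eq_add_neg]
    rfl
  rw [h1, measure_preimage_add_right, Measure.addHaar_preimage_linearMap volume hd, VolL_det,
    Complex.volume_closedBall, abs_of_pos (inv_pos.2 h0)]
  have h2 : (NNReal.pi : ℝ≥0∞) = ENNReal.ofReal Real.pi := by
    rw [← NNReal.coe_real_pi, ENNReal.ofReal_coe_nnreal]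
  rw [h2, ← ENNReal.ofReal_pow hR, ← ENNReal.ofReal_mul (by positivity),
    ← ENNReal.ofReal_mul (inv_pos.2 h0).le]
  congr 1
  field_simp

private theorem VolL_det_of_mul {a : ℂ} {M : ℂ →L[ℝ] ℂ} (h : ∀ x, M x = a * x) :
    M.det = ‖a‖ ^ 2 := by
  have h1 : (M : ℂ →ₗ[ℝ] ℂ) = Algebra.lmul ℝ ℂ a := by
    refine LinearMap.ext fun x => ?_
    simp only [Algebra.coe_lmul_eq_mul, LinearMap.mul_apply']
    exact h x
  rw [ContinuousLinearMap.det, h1, ← Algebra.norm_apply, Algebra.norm_complex_apply,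
    Complex.normSq_eq_norm_sq]

/-- PROOF: `lintegral_comp_holomorphic` in H/MP_09f213_an/CoV.lean (copy it). -/
theorem cov {Ψ : ℂ → ℂ} {U : Set ℂ} (hU : IsOpen U)
    (hΨ : DifferentiableOn ℂ Ψ U) (hinj : InjOn Ψ U) (g : ℂ → ℝ≥0∞) :
    ∫⁻ w in U, ENNReal.ofReal (‖deriv Ψ w‖ ^ 2) * g (Ψ w) = ∫⁻ z in Ψ '' U, g z := by
  have hd : ∀ w ∈ U, HasFDerivWithinAt Ψ
      ((ContinuousLinearMap.toSpanSingleton ℂ (deriv Ψ w)).restrictScalars ℝ) U w := by
    intro w hw
    have h1 : HasDerivAt Ψ (deriv Ψ w) w :=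
      ((hΨ w hw).differentiableAt (hU.mem_nhds hw)).hasDerivAt
    exact (h1.hasFDerivAt.restrictScalars ℝ).hasFDerivWithinAt
  rw [lintegral_image_eq_lintegral_abs_det_fderiv_mul volume hU.measurableSet hd hinj]
  refine setLIntegral_congr_fun hU.measurableSet (fun w _ => ?_)
  rw [VolL_det_of_mul (a := deriv Ψ w), abs_of_nonneg (by positivity)]
  intro x
  simp [mul_comm]

/-- PROOF: polar coordinates (`Complex.lintegral_comp_polarCoord_symm`): `2 π ∫_0^1 r (1 - r²)^q dr`, and
`(1 - r²)^q ≤ (1 - r)^q + 2 ^ q` (or `r (1 - r²)^q` has a primitive). -/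
theorem discInt {q : ℝ} (hq : -1 < q) :
    ∫⁻ z in ball (0 : ℂ) 1, ENNReal.ofReal ((1 - ‖z‖ ^ 2) ^ q) < ⊤ := by
  have hq1 : 0 < q + 1 := by linarith
  have h1 : IntegrableOn (fun y : ℝ => y * (1 - y ^ 2) ^ q) (Ioc 0 1) := by
    refine intervalIntegral.integrableOn_deriv_of_nonneg
      (g := fun y : ℝ => -((1 - y ^ 2) ^ (q + 1)) / (2 * (q + 1))) ?_ ?_ ?_
    · refine ContinuousOn.div_const (ContinuousOn.neg ?_) _
      refine ContinuousOn.rpow_const (by fun_prop) fun x _ => Or.inr hq1.le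
    · intro x hx
      have hpos : 0 < 1 - x ^ 2 := by nlinarith [hx.1, hx.2]
      have h2 : HasDerivAt (fun y : ℝ => 1 - y ^ 2) (-(2 * x)) x := by
        have h3 := (hasDerivAt_pow 2 x).const_sub 1
        simpa using h3
      have h3 := ((h2.rpow_const (p := q + 1) (Or.inl hpos.ne')).neg).div_const (2 * (q + 1))
      have e : -(-(2 * x) * (q + 1) * (1 - x ^ 2) ^ (q + 1 - 1)) / (2 * (q + 1)) =
          x * (1 - x ^ 2) ^ q := by
        rw [add_sub_cancel_right]
        field_simp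
      rw [e] at h3
      exact h3
    · intro x hx
      have hpos : 0 < 1 - x ^ 2 := by nlinarith [hx.1, hx.2]
      exact mul_nonneg hx.1.le (Real.rpow_nonneg hpos.le _)
  have h2 : IntegrableOn (fun z : ℂ => (1 - ‖z‖ ^ 2) ^ q) (ball (0 : ℂ) 1) := by
    refine (integrableOn_fun_norm_addHaar volume (f := fun y : ℝ => (1 - y ^ 2) ^ q)).2 ?_
    refine (h1.mono_set Ioo_subset_Ioc_self).congr_fun (fun y _ => ?_) measurableSet_Ioo
    rw [Complex.finrank_real_complex]
    simp
  exact h2.lintegral_lt_top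

end H65K
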