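import Pool.Agent.H.MP_215299_an.KD.AreaA
import Pool.Agent.H.MP_215299_an.KD.AreaB
import Pool.Agent.H.MP_215299_an.KD.VolL

/-! # The area theorem -/

set_option autoImplicit false

open Complex Metric Set MeasureTheory Filter Topology
open scoped ENNReal

namespace H65K

private theorem Area_ineq {κ C r : ℝ} (hr : r ∈ Ioo (0 : ℝ) (1 / 2)) (hk : 0 ≤ κ)
    (hkr : κ * r ^ 2 ≤ 1 / 2)
    (h : Real.pi * (1 / r ^ 2 - 1) + Real.pi * κ ^ 2 * (1 - r ^ 2) ≤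
      Real.pi * (1 / r + C * r ^ 2) ^ 2 / (1 - (κ * r ^ 2) ^ 2)) :
    κ ^ 2 - 1 ≤ 2 * κ ^ 2 * r ^ 2 - κ ^ 2 * r ^ 4 + κ ^ 4 * (1 - r ^ 2) * r ^ 4 + 2 * C * r +
      C ^ 2 * r ^ 4 := by
  have hr0 := hr.1
  have hd : 0 < 1 - (κ * r ^ 2) ^ 2 := by
    have h0 : 0 ≤ κ * r ^ 2 := by positivity
    nlinarith
  rw [le_div_iff₀ hd] at h
  have hpi := Real.pi_pos
  have h2 : (1 / r ^ 2 - 1 + κ ^ 2 * (1 - r ^ 2)) * (1 - (κ * r ^ 2) ^ 2) ≤
      (1 / r + C * r ^ 2) ^ 2 := by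
    refine le_of_mul_le_mul_left ?_ hpi
    linarith
  have e1 : (1 / r ^ 2 - 1 + κ ^ 2 * (1 - r ^ 2)) * (1 - (κ * r ^ 2) ^ 2) =
      1 / r ^ 2 - 1 + κ ^ 2 * (1 - r ^ 2) - κ ^ 2 * r ^ 2 + κ ^ 2 * r ^ 4 -
        κ ^ 4 * (1 - r ^ 2) * r ^ 4 := by
    field_simp
    ring
  have e2 : (1 / r + C * r ^ 2) ^ 2 = 1 / r ^ 2 + 2 * C * r + C ^ 2 * r ^ 4 := by
    field_simp
    ring
  rw [e1, e2] at h2
  linarith

/-- The area theorem (first coefficient). -/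
theorem area_thm {c : ℂ → ℂ} (hc : DifferentiableOn ℂ c (ball 0 1))
    (hinj : InjOn (fun z : ℂ => z⁻¹ + c z) (ball 0 1 \ {0})) : ‖deriv c 0‖ ≤ 1 := by
  obtain ⟨C, hC, hA⟩ := areaA hc hinj
  set κ : ℝ := ‖deriv c 0‖ with hκ
  have hk : 0 ≤ κ := norm_nonneg _
  have hev : ∀ᶠ r : ℝ in 𝓝[>] 0, κ ^ 2 - 1 ≤ 2 * κ ^ 2 * r ^ 2 - κ ^ 2 * r ^ 4 +
      κ ^ 4 * (1 - r ^ 2) * r ^ 4 + 2 * C * r + C ^ 2 * r ^ 4 := by
    have hc1 : ∀ᶠ r : ℝ in 𝓝[>] 0, κ * r ^ 2 < 1 / 2 := by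
      have ht : Tendsto (fun r : ℝ => κ * r ^ 2) (𝓝[>] 0) (𝓝 (κ * 0 ^ 2)) :=
        ((continuous_const.mul (continuous_pow 2)).tendsto 0).mono_left nhdsWithin_le_nhds
      refine ht.eventually_lt_const ?_
      norm_num
    filter_upwards [hc1, Ioo_mem_nhdsGT (show (0 : ℝ) < 1 / 2 by norm_num)] with r hr1 hr
    have hr0 := hr.1
    refine Area_ineq hr hk hr1.le ?_
    set a : ℂ := deriv c 0 * (r : ℂ) ^ 2 with ha
    have han : ‖a‖ = κ * r ^ 2 := by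
      rw [ha, norm_mul, norm_pow, Complex.norm_real, Real.norm_eq_abs, sq_abs]
    have ha1 : ‖a‖ < 1 := by
      rw [han]
      linarith
    set U : Set ℂ := {z : ℂ | r < ‖z‖ ∧ ‖z‖ < 1} with hU
    have hUo : IsOpen U :=
      (isOpen_lt continuous_const continuous_norm).inter (isOpen_lt continuous_norm continuous_const)
    have hUz : ∀ z ∈ U, z ≠ 0 := by
      intro z hz h0
      rw [h0] at hz
      have := hz.1
      rw [norm_zero] at this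
      linarith
    have hUb : ∀ z ∈ U, z ∈ ball (0 : ℂ) 1 := by
      intro z hz
      rw [mem_ball_zero_iff]
      exact hz.2
    have hd : DifferentiableOn ℂ (fun z : ℂ => z⁻¹ + c z) U := by
      intro z hz
      exact ((differentiableAt_inv (hUz z hz)).add
        (hc.differentiableAt (isOpen_ball.mem_nhds (hUb z hz)))).differentiableWithinAt
    have hUs : U ⊆ ball (0 : ℂ) 1 \ {0} := by
      intro z hz
      exact (Set.mem_sdiff z).2 ⟨hUb z hz, fun h0 => hUz z hz (mem_singleton_iff.1 h0)⟩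
    have hi : InjOn (fun z : ℂ => z⁻¹ + c z) U := hinj.mono hUs
    have h1 := areaB hc (r := r) ⟨hr0, by linarith [hr.2]⟩
    have h2 := cov hUo hd hi (fun _ => 1)
    simp only [mul_one, lintegral_one, Measure.restrict_apply_univ] at h2
    have hR : 0 ≤ 1 / r + C * r ^ 2 := by positivity
    have h3 := volLL ha1 (c 0) hR
    have h4 : volume ((fun z : ℂ => z⁻¹ + c z) '' U) ≤
        volume {w : ℂ | ‖LL a (w - c 0)‖ ≤ 1 / r + C * r ^ 2} := by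
      refine measure_mono ?_
      rintro _ ⟨z, hz, rfl⟩
      exact hA r hr hr1.le z (hUb z hz) hz.1
    have h5 := (h1.trans (h2.le.trans h4)).trans h3.le
    have h6 : 0 ≤ Real.pi * (1 / r + C * r ^ 2) ^ 2 / (1 - ‖a‖ ^ 2) := by
      have : 0 < 1 - ‖a‖ ^ 2 := by
        have := norm_nonneg a
        nlinarith
      positivity
    rw [ENNReal.ofReal_le_ofReal_iff h6, han] at h5
    exact h5
  have ht : Tendsto (fun r : ℝ => 2 * κ ^ 2 * r ^ 2 - κ ^ 2 * r ^ 4 +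
      κ ^ 4 * (1 - r ^ 2) * r ^ 4 + 2 * C * r + C ^ 2 * r ^ 4) (𝓝[>] 0) (𝓝 0) := by
    have hcont : Continuous (fun r : ℝ => 2 * κ ^ 2 * r ^ 2 - κ ^ 2 * r ^ 4 +
      κ ^ 4 * (1 - r ^ 2) * r ^ 4 + 2 * C * r + C ^ 2 * r ^ 4) := by fun_prop
    have := (hcont.tendsto 0).mono_left (nhdsWithin_le_nhds (s := Ioi 0))
    simpa using this
  have h7 := ge_of_tendsto ht hev
  nlinarith

end H65K
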