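import Pool.Agent.H.MP_215299_an.KD.Ne

/-! # Area theorem: the image of the annulus lies in an ellipse -/

set_option autoImplicit false

open Complex Metric Set MeasureTheory Filter Topology

namespace H65K

private theorem AreaA_conn (r : ℝ) (hr0 : 0 ≤ r) : IsConnected ((closedBall (0 : ℂ) r)ᶜ) := by
  have hr : 1 < Module.rank ℝ ℂ := by
    rw [rank_real_complex]
    exact Nat.one_lt_ofNat
  have h1 := isConnected_compl_singleton_of_one_lt_rank hr (0 : ℂ)
  have h2 : (closedBall (0 : ℂ) r)ᶜ = (fun v : ℂ => (r / ‖v‖ + 1) • v) '' {(0 : ℂ)}ᶜ := by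
    ext x
    constructor
    · intro hx
      have hx' : r < ‖x‖ := by simpa using hx
      have hx0 : 0 < ‖x‖ := lt_of_le_of_lt hr0 hx'
      have hx1 : 0 < (‖x‖ - r) / ‖x‖ := div_pos (sub_pos.2 hx') hx0
      refine ⟨((‖x‖ - r) / ‖x‖) • x, ?_, ?_⟩
      · simp only [mem_compl_iff, mem_singleton_iff, smul_eq_zero, not_or]
        exact ⟨hx1.ne', norm_pos_iff.1 hx0⟩
      · have hn : ‖((‖x‖ - r) / ‖x‖) • x‖ = ‖x‖ - r := by
          rw [norm_smul, Real.norm_of_nonneg hx1.le, div_mul_cancel₀ _ hx0.ne']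
        have hne : ‖x‖ - r ≠ 0 := (sub_pos.2 hx').ne'
        simp only [hn, smul_smul]
        have : (r / (‖x‖ - r) + 1) * ((‖x‖ - r) / ‖x‖) = 1 := by
          field_simp
          ring
        rw [this, one_smul]
    · rintro ⟨v, hv, rfl⟩
      have hv0 : 0 < ‖v‖ := norm_pos_iff.2 hv
      have hc : 0 ≤ r / ‖v‖ + 1 := by positivity
      simp only [mem_compl_iff, mem_closedBall, dist_zero_right, not_le, norm_smul,
        Real.norm_of_nonneg hc]
      have : (r / ‖v‖ + 1) * ‖v‖ = r + ‖v‖ := by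
        field_simp
      rw [this]
      linarith
  rw [h2]
  refine h1.image _ ?_
  intro v hv
  have hv0 : ‖v‖ ≠ 0 := norm_ne_zero_iff.2 hv
  apply ContinuousAt.continuousWithinAt
  have : ContinuousAt (fun v : ℂ => r / ‖v‖ + 1) v :=
    (continuousAt_const.div continuous_norm.continuousAt hv0).add continuousAt_const
  exact this.smul continuousAt_id

/-- the inverse of `LL a` -/
private noncomputable def AreaA_M (a w : ℂ) : ℂ := (w + a * (starRingEnd ℂ) w) / (1 - ‖a‖ ^ 2 : ℝ)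

private theorem AreaA_den {a : ℂ} (ha : ‖a‖ < 1) : ((1 - ‖a‖ ^ 2 : ℝ) : ℂ) ≠ 0 := by
  have : (1 - ‖a‖ ^ 2 : ℝ) ≠ 0 := by
    have := norm_nonneg a
    nlinarith
  exact_mod_cast this

private theorem AreaA_sq (a : ℂ) : a * (starRingEnd ℂ) a = ((‖a‖ ^ 2 : ℝ) : ℂ) := by
  rw [Complex.mul_conj, Complex.normSq_eq_norm_sq]

private theorem AreaA_LM {a : ℂ} (ha : ‖a‖ < 1) (w : ℂ) : LL a (AreaA_M a w) = w := by
  have hd := AreaA_den ha
  unfold LL AreaA_M
  rw [map_div₀, map_add, map_mul, Complex.conj_ofReal, Complex.conj_conj]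
  field_simp
  have := AreaA_sq a
  push_cast at this ⊢
  linear_combination (-w) * this

private theorem AreaA_ML {a : ℂ} (ha : ‖a‖ < 1) (w : ℂ) : AreaA_M a (LL a w) = w := by
  have hd := AreaA_den ha
  unfold LL AreaA_M
  rw [map_sub, map_mul, Complex.conj_conj]
  field_simp
  have := AreaA_sq a
  push_cast at this ⊢
  linear_combination (-w) * this

private theorem AreaA_pre {a : ℂ} (ha : ‖a‖ < 1) (b : ℂ) {R : ℝ} (hR : 0 ≤ R) :
    IsPreconnected {w : ℂ | R < ‖LL a (w - b)‖} := by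
  have h : {w : ℂ | R < ‖LL a (w - b)‖} = (fun u => b + AreaA_M a u) '' (closedBall (0 : ℂ) R)ᶜ := by
    ext w
    constructor
    · intro hw
      refine ⟨LL a (w - b), ?_, ?_⟩
      · rw [mem_compl_iff, mem_closedBall_zero_iff, not_le]
        exact hw
      · change b + AreaA_M a (LL a (w - b)) = w
        rw [AreaA_ML ha]
        ring
    · rintro ⟨u, hu, rfl⟩
      rw [mem_compl_iff, mem_closedBall_zero_iff, not_le] at hu
      change R < ‖LL a (b + AreaA_M a u - b)‖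
      rw [add_sub_cancel_left, AreaA_LM ha]
      exact hu
  rw [h]
  refine (AreaA_conn R hR).isPreconnected.image _ ?_
  apply Continuous.continuousOn
  unfold AreaA_M
  exact continuous_const.add ((continuous_id.add (continuous_const.mul
    Complex.continuous_conj)).div_const _)

/-- The function `G(z) = 1/z + c(z)` in the punctured disc.
PROOF. Let `c₁ = deriv c 0`, `e(z) = c z - c 0 - c₁ z`, `|e z| ≤ C₀ |z|²` for `|z| ≤ 1/2`. With `a = c₁ r²` and
`|z| = r`: `conj(z⁻¹) r² = z`, so `LL a (G z - c 0) = z⁻¹ + e - a conj(c₁ z) - a conj(e)`, of norm at most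
`R = 1/r + C r²`, `C = 2 C₀ + |c₁|²`. Let `U = {w | R < |LL a (w - c 0)|}` (open, connected). The set
`V = U ∩ G '' {0 < |z| < r}` is open (open mapping), not empty, and `V = U ∩ G '' {0 < |z| ≤ r}` is closed in `U`.
So `V = U`, and `G z ∈ U` for `r < |z| < 1` contradicts the injectivity. -/
theorem areaA {c : ℂ → ℂ} (hc : DifferentiableOn ℂ c (ball 0 1))
    (hinj : InjOn (fun z : ℂ => z⁻¹ + c z) (ball 0 1 \ {0})) :
    ∃ C : ℝ, 0 ≤ C ∧ ∀ r ∈ Ioo (0 : ℝ) (1 / 2), ‖deriv c 0‖ * r ^ 2 ≤ 1 / 2 →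
      ∀ z ∈ ball (0 : ℂ) 1, r < ‖z‖ →
        ‖LL (deriv c 0 * (r : ℂ) ^ 2) (z⁻¹ + c z - c 0)‖ ≤ 1 / r + C * r ^ 2 := by
  have h01 : ball (0 : ℂ) 1 ∈ 𝓝 (0 : ℂ) := isOpen_ball.mem_nhds (mem_ball_self one_pos)
  have hsub : closedBall (0 : ℂ) (1 / 2) ⊆ ball 0 1 := closedBall_subset_ball (by norm_num)
  -- the second difference quotient
  obtain ⟨d, hd⟩ : ∃ d, d = dslope c 0 := ⟨_, rfl⟩
  have hdd : DifferentiableOn ℂ d (ball 0 1) := by
    rw [hd]
    exact (Complex.differentiableOn_dslope h01).2 hc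
  obtain ⟨e, he⟩ : ∃ e, e = dslope d 0 := ⟨_, rfl⟩
  have hed : DifferentiableOn ℂ e (ball 0 1) := by
    rw [he]
    exact (Complex.differentiableOn_dslope h01).2 hdd
  have hexp : ∀ z : ℂ, c z = c 0 + deriv c 0 * z + z ^ 2 * e z := by
    intro z
    have h1 := sub_smul_dslope c 0 z
    have h2 := sub_smul_dslope d 0 z
    rw [sub_zero, smul_eq_mul] at h1 h2
    have h3 : d 0 = deriv c 0 := by rw [hd, dslope_same]
    rw [← he, h3] at h2
    rw [← hd] at h1
    linear_combination (-1 : ℂ) * h1 - z * h2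
  obtain ⟨C₀, hC₀⟩ := (isCompact_closedBall (0 : ℂ) (1 / 2)).exists_bound_of_continuousOn
    (hed.continuousOn.mono hsub)
  obtain ⟨M, hM⟩ := (isCompact_closedBall (0 : ℂ) (1 / 2)).exists_bound_of_continuousOn
    (hc.continuousOn.mono hsub)
  have hC₀0 : 0 ≤ C₀ := (norm_nonneg _).trans (hC₀ 0 (mem_closedBall_self (by norm_num)))
  have hM0 : 0 ≤ M := (norm_nonneg _).trans (hM 0 (mem_closedBall_self (by norm_num)))
  refine ⟨2 * C₀ + ‖deriv c 0‖ ^ 2, by positivity, ?_⟩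
  intro r hr hc1 z hz hrz
  obtain ⟨hr0, hr1⟩ := hr
  obtain ⟨a, ha⟩ : ∃ a, a = deriv c 0 * (r : ℂ) ^ 2 := ⟨_, rfl⟩
  have hrn : ‖(r : ℂ)‖ = r := by rw [Complex.norm_real, Real.norm_of_nonneg hr0.le]
  have han : ‖a‖ = ‖deriv c 0‖ * r ^ 2 := by rw [ha, norm_mul, norm_pow, hrn]
  have ha2 : ‖a‖ ≤ 1 / 2 := by rw [han]; exact hc1
  have ha1 : ‖a‖ < 1 := by linarith
  obtain ⟨R, hR⟩ : ∃ R, R = 1 / r + (2 * C₀ + ‖deriv c 0‖ ^ 2) * r ^ 2 := ⟨_, rfl⟩
  have hR0 : 0 ≤ R := by rw [hR]; positivity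
  obtain ⟨G, hG⟩ : ∃ G : ℂ → ℂ, G = fun z => z⁻¹ + c z := ⟨_, rfl⟩
  rw [← hG] at hinj
  rw [← ha, ← hR]
  have hGz : z⁻¹ + c z = G z := by rw [hG]
  rw [hGz]
  by_contra hcon
  rw [not_le] at hcon
  -- the circle
  have hcirc : ∀ x : ℂ, ‖x‖ = r → ‖LL a (G x - c 0)‖ ≤ R := by
    intro x hx
    have hx0 : x ≠ 0 := by
      rw [← norm_pos_iff, hx]
      exact hr0
    have hxc : x * (starRingEnd ℂ) x = (r : ℂ) ^ 2 := by
      rw [Complex.mul_conj, Complex.normSq_eq_norm_sq, hx]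
      push_cast
      rfl
    have hcx : (starRingEnd ℂ) x ≠ 0 := by
      intro h0
      rw [h0, mul_zero] at hxc
      exact (pow_ne_zero 2 (by exact_mod_cast hr0.ne')) hxc.symm
    have h1 : LL a (G x - c 0) = x⁻¹ + x ^ 2 * e x - a * (starRingEnd ℂ) (deriv c 0 * x) -
        a * (starRingEnd ℂ) (x ^ 2 * e x) := by
      rw [hG]
      unfold LL
      simp only [hexp x, map_add, map_sub, map_mul, map_inv₀]
      rw [ha]
      have h2 : (r : ℂ) ^ 2 * ((starRingEnd ℂ) x)⁻¹ = x := by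
        rw [← hxc]
        field_simp
      linear_combination (-(deriv c 0)) * h2
    have hex : ‖x ^ 2 * e x‖ ≤ C₀ * r ^ 2 := by
      rw [norm_mul, norm_pow, hx, mul_comm]
      exact mul_le_mul_of_nonneg_right (hC₀ x (by
        rw [mem_closedBall_zero_iff, hx]
        exact hr1.le)) (by positivity)
    have h2 : ‖x⁻¹‖ = 1 / r := by rw [norm_inv, hx, one_div]
    have h3 : ‖a * (starRingEnd ℂ) (deriv c 0 * x)‖ ≤ ‖deriv c 0‖ ^ 2 * r ^ 2 := by
      rw [norm_mul, Complex.norm_conj, norm_mul, han, hx]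
      have h4 : ‖deriv c 0‖ * r ^ 2 * (‖deriv c 0‖ * r) = (‖deriv c 0‖ ^ 2 * r ^ 2) * r := by ring
      rw [h4]
      exact mul_le_of_le_one_right (by positivity) (by linarith)
    have h4 : ‖a * (starRingEnd ℂ) (x ^ 2 * e x)‖ ≤ C₀ * r ^ 2 := by
      rw [norm_mul, Complex.norm_conj]
      exact (mul_le_of_le_one_left (norm_nonneg _) ha1.le).trans hex
    rw [h1, hR]
    refine (norm_sub_le _ _).trans ?_
    have h5 := (norm_sub_le (x⁻¹ + x ^ 2 * e x) (a * (starRingEnd ℂ) (deriv c 0 * x))).trans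
      (add_le_add_left (norm_add_le _ _) _)
    linarith
  -- the sets
  have hPo : IsOpen (ball (0 : ℂ) r \ {0}) := isOpen_ball.sdiff isClosed_singleton
  have hrb : ball (0 : ℂ) r ⊆ ball 0 1 := ball_subset_ball (by linarith)
  have hGd : DifferentiableOn ℂ G (ball 0 1 \ {0}) := by
    rw [hG]
    exact (differentiableOn_inv.mono (fun x hx => hx.2)).add (hc.mono diff_subset)
  have hVo : IsOpen (G '' (ball (0 : ℂ) r \ {0})) :=
    isOpen_im hPo (hGd.mono (sdiff_subset_sdiff_left hrb)) (hinj.mono (sdiff_subset_sdiff_left hrb))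
  have hlow : ∀ x : ℂ, ‖x‖ ≤ r → 1 / ‖x‖ ≤ ‖G x‖ + M := by
    intro x hx
    have h1 : x⁻¹ = G x - c x := by rw [hG]; ring
    have h2 : ‖x⁻¹‖ ≤ ‖G x‖ + ‖c x‖ := by
      rw [h1]
      exact norm_sub_le _ _
    rw [norm_inv, ← one_div] at h2
    have h3 := hM x (by
      rw [mem_closedBall_zero_iff]
      linarith)
    linarith
  have hKc : IsClosed (G '' (closedBall (0 : ℂ) r \ {0})) := by
    refine isClosed_of_closure_subset fun w hw => ?_
    obtain ⟨δ, hδ⟩ : ∃ δ, δ = 1 / (‖w‖ + 1 + M) := ⟨_, rfl⟩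
    have hδ0 : 0 < δ := by rw [hδ]; positivity
    have hA : IsCompact (closedBall (0 : ℂ) r \ ball 0 δ) :=
      (isCompact_closedBall 0 r).diff isOpen_ball
    have hAs : closedBall (0 : ℂ) r \ ball 0 δ ⊆ ball 0 1 \ {0} := by
      intro x hx
      refine ⟨?_, ?_⟩
      · have := mem_closedBall_zero_iff.1 hx.1
        rw [mem_ball_zero_iff]
        linarith
      · rintro rfl
        exact hx.2 (mem_ball_self hδ0)
    have hGA : IsClosed (G '' (closedBall (0 : ℂ) r \ ball 0 δ)) :=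
      (hA.image_of_continuousOn (hGd.continuousOn.mono hAs)).isClosed
    have hw2 : w ∈ closure (ball w 1 ∩ G '' (closedBall (0 : ℂ) r \ {0})) :=
      mem_closure_iff_nhds.2 fun t ht => by
        obtain ⟨y, hy1, hy2⟩ := mem_closure_iff_nhds.1 hw _
          (inter_mem ht (ball_mem_nhds w one_pos))
        exact ⟨y, hy1.1, hy1.2, hy2⟩
    have hsub2 : ball w 1 ∩ G '' (closedBall (0 : ℂ) r \ {0}) ⊆
        G '' (closedBall (0 : ℂ) r \ ball 0 δ) := by
      rintro _ ⟨hy, x, hx, rfl⟩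
      refine ⟨x, ⟨hx.1, ?_⟩, rfl⟩
      intro hxδ
      rw [mem_ball_zero_iff] at hxδ
      have hx0 : 0 < ‖x‖ := norm_pos_iff.2 hx.2
      have h1 := hlow x (mem_closedBall_zero_iff.1 hx.1)
      have h2 : ‖G x‖ ≤ ‖w‖ + 1 := by
        have h3 : ‖G x - w‖ < 1 := by rwa [mem_ball, dist_eq_norm] at hy
        have h4 : ‖G x‖ ≤ ‖G x - w‖ + ‖w‖ := by
          have := norm_add_le (G x - w) w
          rwa [sub_add_cancel] at this
        linarith
      have h3 : 1 / ‖x‖ ≤ ‖w‖ + 1 + M := by linarith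
      have h4 : 0 < ‖w‖ + 1 + M := by positivity
      rw [hδ, lt_div_iff₀ h4] at hxδ
      rw [div_le_iff₀ hx0] at h3
      linarith
    obtain ⟨x, hx, hxw⟩ := (closure_minimal hsub2 hGA) hw2
    exact ⟨x, ⟨hx.1, (hAs hx).2⟩, hxw⟩
  have hpre := AreaA_pre ha1 (c 0) hR0
  have hU : {w : ℂ | R < ‖LL a (w - c 0)‖} ⊆ G '' (ball (0 : ℂ) r \ {0}) := by
    refine IsPreconnected.subset_left_of_subset_union hVo hKc.isOpen_compl ?_ ?_ ?_ hpre
    · rw [disjoint_compl_right_iff_subset]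
      exact image_mono (sdiff_subset_sdiff_left ball_subset_closedBall)
    · intro w hw
      by_cases hwK : w ∈ G '' (closedBall (0 : ℂ) r \ {0})
      · left
        obtain ⟨x, hx, rfl⟩ := hwK
        refine ⟨x, ⟨?_, hx.2⟩, rfl⟩
        have h1 := mem_closedBall_zero_iff.1 hx.1
        rw [mem_ball_zero_iff]
        refine lt_of_le_of_ne h1 fun h2 => ?_
        exact absurd (hcirc x h2) (not_le.2 hw)
      · exact Or.inr hwK
    · -- a small point
      obtain ⟨t, ht⟩ : ∃ t : ℝ, t = min (r / 2) (1 / (2 * R + 2 * M + 1)) := ⟨_, rfl⟩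
      have ht0 : 0 < t := by
        rw [ht]
        refine lt_min (by linarith) (by positivity)
      have htr : t < r := by
        have : t ≤ r / 2 := by rw [ht]; exact min_le_left _ _
        linarith
      have ht2 : 2 * R + 2 * M + 1 ≤ 1 / t := by
        have h1 : t ≤ 1 / (2 * R + 2 * M + 1) := by rw [ht]; exact min_le_right _ _
        rw [le_div_iff₀ (by positivity)] at h1
        rw [le_div_iff₀ ht0]
        linarith
      have htn : ‖(t : ℂ)‖ = t := by rw [Complex.norm_real, Real.norm_of_nonneg ht0.le]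
      have htne : (t : ℂ) ≠ 0 := by exact_mod_cast ht0.ne'
      refine ⟨G t, ?_, ⟨(t : ℂ), ⟨?_, htne⟩, rfl⟩⟩
      · change R < ‖LL a (G t - c 0)‖
        have h1 := hlow t (by rw [htn]; exact htr.le)
        rw [htn] at h1
        have h2 : ‖c 0‖ ≤ M := hM 0 (mem_closedBall_self (by norm_num))
        have h3 : ‖G t‖ ≤ ‖G t - c 0‖ + ‖c 0‖ := by
          have := norm_add_le (G t - c 0) (c 0)
          rwa [sub_add_cancel] at this
        have h4 : ‖G t - c 0‖ ≤ ‖LL a (G t - c 0)‖ + ‖a‖ * ‖G t - c 0‖ := by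
          have h5 : G t - c 0 = LL a (G t - c 0) + a * (starRingEnd ℂ) (G t - c 0) := by
            unfold LL
            ring
          calc ‖G t - c 0‖ = ‖LL a (G t - c 0) + a * (starRingEnd ℂ) (G t - c 0)‖ := by
                rw [← h5]
            _ ≤ _ := (norm_add_le _ _).trans (by rw [norm_mul, Complex.norm_conj])
        have h5 : ‖a‖ * ‖G t - c 0‖ ≤ 1 / 2 * ‖G t - c 0‖ :=
          mul_le_mul_of_nonneg_right ha2 (norm_nonneg _)
        linarith
      · rw [mem_ball_zero_iff, htn]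
        exact htr
  obtain ⟨x, hx, hxz⟩ := hU hcon
  have hz0 : z ≠ 0 := by
    rw [← norm_pos_iff]
    linarith
  have h1 := hinj ⟨hrb hx.1, hx.2⟩ ⟨hz, hz0⟩ hxz
  rw [← h1] at hrz
  exact absurd (mem_ball_zero_iff.1 hx.1) (not_lt.2 hrz.le)

end H65K
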