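import Mathlib

/-!
# MP_215299_an, helper65: the exceptional directions.  Definitions.

`f` is a normalised univalent function on the unit disc, `F` its inverse, `Ω = f(𝔻)`.
THEOREM (Main): for `1 < p < 3` the set of `θ` with `I_p(f_θ) = ∞`, `f_θ(z) = e^{-iθ} f(e^{iθ} z)`, has
Hausdorff dimension at most `(p - 1) / 2`.
-/

set_option autoImplicit false

open Complex Metric Set MeasureTheory Filter Topology
open scoped ENNReal

namespace H65K

/-- Normalised univalent functions on the unit disc. -/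
structure Schl (f : ℂ → ℂ) : Prop where
  diff : DifferentiableOn ℂ f (ball 0 1)
  inj : InjOn f (ball 0 1)
  zero : f 0 = 0
  one : deriv f 0 = 1

/-- `f_θ(z) = e^{-iθ} f(e^{iθ} z)`. -/
noncomputable def rot (θ : ℝ) (g : ℂ → ℂ) (z : ℂ) : ℂ :=
  exp (-(θ * I)) * g (exp (θ * I) * z)

/-- `I_p(f)`, `F` being the inverse of `f`. -/
noncomputable def Ip (p : ℝ) (f F : ℂ → ℂ) : ℝ≥0∞ :=
  ∫⁻ x in {x : ℝ | (x : ℂ) ∈ f '' ball 0 1}, ENNReal.ofReal (‖deriv F (x : ℂ)‖ ^ p)

/-- The distance from the complement of `f(𝔻)`. -/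
noncomputable def dd (f : ℂ → ℂ) (w : ℂ) : ℝ := infDist w (f '' ball 0 1)ᶜ

/-- `1 - |F|²`. -/
noncomputable def oo (F : ℂ → ℂ) (w : ℂ) : ℝ := 1 - ‖F w‖ ^ 2

/-- The real-linear map `w ↦ w - a conj w`. -/
noncomputable def LL (a w : ℂ) : ℂ := w - a * (starRingEnd ℂ) w

end H65K
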