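import Mathlib

/-! # Dyadic covering -/

set_option autoImplicit false

open Metric Set MeasureTheory Filter Topology
open scoped ENNReal NNReal

namespace H65K

/-- the dyadic interval number `j` of level `k` -/
private def dyI (k : ℕ) (j : ℤ) : Set ℝ := Ico ((j : ℝ) * (1 / 2) ^ k) (((j : ℝ) + 1) * (1 / 2) ^ k)

private lemma dy_w (k : ℕ) : (0 : ℝ) < (1 / 2) ^ k := by positivity

private lemma dy_w1 (k : ℕ) : ((1 : ℝ) / 2) ^ k ≤ 1 := pow_le_one₀ (by norm_num) (by norm_num)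

private lemma dy_mem (k : ℕ) (θ : ℝ) : θ ∈ dyI k ⌊θ / (1 / 2) ^ k⌋ := by
  have hw := dy_w k
  refine ⟨?_, ?_⟩
  · rw [← le_div_iff₀ hw]
    exact Int.floor_le _
  · rw [← div_lt_iff₀ hw]
    exact Int.lt_floor_add_one _

private lemma dy_diam (k : ℕ) (j : ℤ) : ediam (dyI k j) = ENNReal.ofReal ((1 / 2) ^ k) := by
  unfold dyI
  rw [Real.ediam_Ico]
  congr 1
  ring

private lemma dy_vol (k : ℕ) (j : ℤ) : volume (dyI k j) = ENNReal.ofReal ((1 / 2) ^ k) := by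
  unfold dyI
  rw [Real.volume_Ico]
  congr 1
  ring

private lemma dy_disj (k : ℕ) {i j : ℤ} (h : i ≠ j) : Disjoint (dyI k i) (dyI k j) := by
  rw [Set.disjoint_left]
  rintro x ⟨h1, h2⟩ ⟨h3, h4⟩
  have hw := dy_w k
  have e1 : (i : ℝ) < (j : ℝ) + 1 := by
    by_contra hh
    push Not at hh
    have := mul_le_mul_of_nonneg_right hh hw.le
    linarith
  have e2 : (j : ℝ) < (i : ℝ) + 1 := by
    by_contra hh
    push Not at hh
    have := mul_le_mul_of_nonneg_right hh hw.le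
    linarith
  have e3 : i < j + 1 := by exact_mod_cast e1
  have e4 : j < i + 1 := by exact_mod_cast e2
  omega

private lemma dy_finite (k : ℕ) (m : ℤ) :
    {j : ℤ | ∃ θ ∈ Icc (m : ℝ) (m + 1), θ ∈ dyI k j}.Finite := by
  have hw := dy_w k
  refine (Set.finite_Icc (⌊(m : ℝ) / (1 / 2) ^ k⌋ - 1) ⌊((m : ℝ) + 1) / (1 / 2) ^ k⌋).subset ?_
  rintro j ⟨θ, ⟨h1, h2⟩, h3, h4⟩
  refine ⟨?_, ?_⟩
  · have : ((⌊(m : ℝ) / (1 / 2) ^ k⌋ : ℤ) : ℝ) ≤ (j : ℝ) + 1 := by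
      refine (Int.floor_le _).trans ?_
      rw [div_le_iff₀ hw]
      linarith
    have h5 : ⌊(m : ℝ) / (1 / 2) ^ k⌋ ≤ j + 1 := by exact_mod_cast this
    omega
  · rw [Int.le_floor, le_div_iff₀ hw]
    linarith

private lemma dy_pow {s ε : ℝ} (k : ℕ) : (((1 : ℝ) / 2) ^ k) ^ (s + ε) =
    (1 / 2) ^ k * ((2 : ℝ) ^ (-ε)) ^ k * (2 : ℝ) ^ ((k : ℝ) * (1 - s)) := by
  have h1 : ((1 : ℝ) / 2) ^ k = (2 : ℝ) ^ (-(k : ℝ)) := by
    rw [Real.rpow_neg (by norm_num), Real.rpow_natCast, one_div, inv_pow]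
  have h2 : ((2 : ℝ) ^ (-ε)) ^ k = (2 : ℝ) ^ (-ε * k) := by
    rw [← Real.rpow_natCast, ← Real.rpow_mul (by norm_num)]
  rw [h1, h2, ← Real.rpow_mul (by norm_num), ← Real.rpow_add (by norm_num),
    ← Real.rpow_add (by norm_num)]
  congr 1
  ring

/-- the number of bad intervals of one level -/
private lemma dy_count {J Js : ℝ → ℝ≥0∞} {C : ℝ≥0∞} (hC : C ≠ ⊤) (k : ℕ) (m : ℤ) (η : ℝ≥0∞)
    (h1 : ∀ θ φ : ℝ, |φ - θ| ≤ (1 / 2) ^ k → J θ ≤ C * Js φ) (S : Finset ℤ)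
    (hS : ∀ j ∈ S, ∃ θ ∈ Icc (m : ℝ) (m + 1), θ ∈ dyI k j ∧ η ≤ J θ) :
    (S.card : ℝ≥0∞) * (ENNReal.ofReal ((1 / 2) ^ k) * η) ≤
      C * ∫⁻ φ in Icc ((m : ℝ) - 1) (m + 2), Js φ := by
  have hw := dy_w k
  have hw1 := dy_w1 k
  have hpt : ∀ j ∈ S, dyI k j ⊆ Icc ((m : ℝ) - 1) (m + 2) ∧ ∀ φ ∈ dyI k j, η ≤ C * Js φ := by
    intro j hj
    obtain ⟨θ, ⟨a1, a2⟩, ⟨b1, b2⟩, hη⟩ := hS j hj
    refine ⟨?_, ?_⟩
    · rintro φ ⟨c1, c2⟩
      constructor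
      · nlinarith
      · nlinarith
    · rintro φ ⟨c1, c2⟩
      refine hη.trans (h1 θ φ ?_)
      rw [abs_le]
      constructor
      · nlinarith
      · nlinarith
  calc (S.card : ℝ≥0∞) * (ENNReal.ofReal ((1 / 2) ^ k) * η)
      = ∑ j ∈ S, ∫⁻ _ in dyI k j, η := by
        rw [Finset.sum_congr rfl fun j _ => by
          rw [setLIntegral_const, dy_vol k j], Finset.sum_const, nsmul_eq_mul,
          mul_comm (ENNReal.ofReal _) η]
    _ ≤ ∑ j ∈ S, ∫⁻ φ in dyI k j, C * Js φ :=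
        Finset.sum_le_sum fun j hj => setLIntegral_mono' measurableSet_Ico (hpt j hj).2
    _ = ∫⁻ φ in ⋃ j ∈ S, dyI k j, C * Js φ := by
        rw [lintegral_biUnion_finset (fun i _ j _ hij => dy_disj k hij)
          (fun j _ => measurableSet_Ico)]
    _ ≤ ∫⁻ φ in Icc ((m : ℝ) - 1) (m + 2), C * Js φ :=
        lintegral_mono_set (Set.iUnion₂_subset fun j hj => (hpt j hj).1)
    _ = C * ∫⁻ φ in Icc ((m : ℝ) - 1) (m + 2), Js φ := lintegral_const_mul' _ _ hC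

private lemma dy_piece {s : ℝ} (hs : 0 < s) {J Js : ℕ → ℝ → ℝ≥0∞} {C : ℝ≥0∞} (hC : C ≠ ⊤)
    (h1 : ∀ (k : ℕ) (θ φ : ℝ), |φ - θ| ≤ (1 / 2) ^ k → J k θ ≤ C * Js k φ)
    (h2 : ∀ a b : ℝ, ∑' k : ℕ, ENNReal.ofReal ((2 : ℝ) ^ ((k : ℝ) * (1 - s))) *
      ∫⁻ φ in Icc a b, Js k φ < ⊤) {ε : ℝ} (hε : 0 < ε) (m : ℤ) :
    μH[s + ε] ({θ : ℝ | ∑' k : ℕ, J k θ = ⊤} ∩ Icc (m : ℝ) (m + 1)) = 0 := by
  classical
  obtain ⟨A, hA⟩ : ∃ A : ℕ → ℝ≥0∞, A = fun k => ∫⁻ φ in Icc ((m : ℝ) - 1) (m + 2), Js k φ :=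
    ⟨_, rfl⟩
  have hsum := h2 ((m : ℝ) - 1) (m + 2)
  have hG : ∀ k : ℕ, (0 : ℝ) < (2 : ℝ) ^ ((k : ℝ) * (1 - s)) := fun k => by positivity
  have hAf : ∀ k, A k ≠ ⊤ := by
    intro k hk
    have h3 := ENNReal.ne_top_of_tsum_ne_top hsum.ne k
    have h4 : (∫⁻ φ in Icc ((m : ℝ) - 1) (m + 2), Js k φ) = ⊤ := by
      rw [hA] at hk
      exact hk
    rw [h4, ENNReal.mul_top] at h3
    · exact h3 rfl
    · exact (ENNReal.ofReal_pos.2 (hG k)).ne'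
  -- every term is finite
  have hfin : ∀ (k : ℕ) (θ : ℝ), θ ∈ Icc (m : ℝ) (m + 1) → J k θ ≠ ⊤ := by
    intro k θ hθ hJ
    have h3 := dy_count hC k m ⊤ (h1 k) {⌊θ / (1 / 2) ^ k⌋} (by
      intro j hj
      rw [Finset.mem_singleton] at hj
      subst hj
      exact ⟨θ, hθ, dy_mem k θ, hJ.ge⟩)
    rw [Finset.card_singleton, Nat.cast_one, one_mul, ENNReal.mul_top
      (ENNReal.ofReal_pos.2 (dy_w k)).ne', top_le_iff] at h3
    refine ENNReal.mul_ne_top hC (hAf k) ?_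
    rw [hA]
    exact h3
  -- the bad intervals
  obtain ⟨r, hr⟩ : ∃ r : ℝ, r = (2 : ℝ) ^ (-ε) := ⟨_, rfl⟩
  have hr0 : 0 < r := by rw [hr]; positivity
  have hr1 : r < 1 := by
    rw [hr]
    exact Real.rpow_lt_one_of_one_lt_of_neg (by norm_num) (by linarith)
  have hBf : ∀ k, {j : ℤ | ∃ θ ∈ Icc (m : ℝ) (m + 1), θ ∈ dyI k j ∧
      ENNReal.ofReal (r ^ k) ≤ J k θ}.Finite := fun k =>
    (dy_finite k m).subset (by
      rintro j ⟨θ, h3, h4, -⟩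
      exact ⟨θ, h3, h4⟩)
  obtain ⟨B, hB⟩ : ∃ B : ℕ → Finset ℤ, ∀ k j, j ∈ B k ↔ ∃ θ ∈ Icc (m : ℝ) (m + 1), θ ∈ dyI k j ∧
      ENNReal.ofReal (r ^ k) ≤ J k θ :=
    ⟨fun k => (hBf k).toFinset, fun k j => by rw [Set.Finite.mem_toFinset]; rfl⟩
  have hcount : ∀ k, ((B k).card : ℝ≥0∞) * ENNReal.ofReal ((1 / 2) ^ k) ^ (s + ε) ≤
      C * (ENNReal.ofReal ((2 : ℝ) ^ ((k : ℝ) * (1 - s))) *
        ∫⁻ φ in Icc ((m : ℝ) - 1) (m + 2), Js k φ) := by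
    intro k
    have h3 := dy_count hC k m (ENNReal.ofReal (r ^ k)) (h1 k) (B k) fun j hj => (hB k j).1 hj
    rw [ENNReal.ofReal_rpow_of_pos (dy_w k), dy_pow, ← hr,
      ENNReal.ofReal_mul (by positivity), ENNReal.ofReal_mul (by positivity)]
    calc ((B k).card : ℝ≥0∞) * (ENNReal.ofReal ((1 / 2) ^ k) * ENNReal.ofReal (r ^ k) *
          ENNReal.ofReal ((2 : ℝ) ^ ((k : ℝ) * (1 - s))))
        = ((B k).card : ℝ≥0∞) * (ENNReal.ofReal ((1 / 2) ^ k) * ENNReal.ofReal (r ^ k)) *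
          ENNReal.ofReal ((2 : ℝ) ^ ((k : ℝ) * (1 - s))) := by ring
      _ ≤ (C * ∫⁻ φ in Icc ((m : ℝ) - 1) (m + 2), Js k φ) *
          ENNReal.ofReal ((2 : ℝ) ^ ((k : ℝ) * (1 - s))) := by gcongr
      _ = _ := by ring
  obtain ⟨g, hg⟩ : ∃ g : ℕ → ℝ≥0∞, g = fun k =>
    ((B k).card : ℝ≥0∞) * ENNReal.ofReal ((1 / 2) ^ k) ^ (s + ε) := ⟨_, rfl⟩
  have hgs : ∑' k, g k ≠ ⊤ := by
    have h3 : ∑' k : ℕ, g k ≤ ∑' k : ℕ, C * (ENNReal.ofReal ((2 : ℝ) ^ ((k : ℝ) * (1 - s))) *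
        ∫⁻ φ in Icc ((m : ℝ) - 1) (m + 2), Js k φ) := by
      rw [hg]
      exact ENNReal.tsum_le_tsum hcount
    refine ne_top_of_le_ne_top ?_ h3
    rw [ENNReal.tsum_mul_left]
    exact ENNReal.mul_ne_top hC hsum.ne
  have hlim := ENNReal.tendsto_sum_nat_add g hgs
  -- the covering
  obtain ⟨t, ht⟩ : ∃ t : ℕ → ℕ × ℤ → Set ℝ, t = fun n x =>
    if x.2 ∈ B (x.1 + n) then dyI (x.1 + n) x.2 else ∅ := ⟨_, rfl⟩
  have hse : 0 < s + ε := by linarith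
  have hmeas := Measure.hausdorffMeasure_le_liminf_tsum (l := atTop) (ι := fun _ : ℕ => ℕ × ℤ)
    (s + ε) ({θ : ℝ | ∑' k : ℕ, J k θ = ⊤} ∩ Icc (m : ℝ) (m + 1))
    (fun n : ℕ => ENNReal.ofReal ((1 / 2) ^ n)) (by
      have h3 : Tendsto (fun n : ℕ => ((1 : ℝ) / 2) ^ n) atTop (𝓝 0) :=
        tendsto_pow_atTop_nhds_zero_of_lt_one (by norm_num) (by norm_num)
      have h4 := ENNReal.tendsto_ofReal h3
      rw [ENNReal.ofReal_zero] at h4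
      exact h4) t
    (Eventually.of_forall fun n x => by
      rw [ht]
      show ediam (if x.2 ∈ B (x.1 + n) then dyI (x.1 + n) x.2 else ∅) ≤ _
      split_ifs with h3
      · rw [dy_diam]
        refine ENNReal.ofReal_le_ofReal ?_
        exact pow_le_pow_of_le_one (by norm_num) (by norm_num) (by omega)
      · simp)
    (Eventually.of_forall fun n θ hθ => by
      obtain ⟨hθ1, hθ2⟩ := hθ
      have h3 : ∃ k, n ≤ k ∧ ENNReal.ofReal (r ^ k) ≤ J k θ := by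
        by_contra hh
        push Not at hh
        have h4 : ∑' k, J k θ ≠ ⊤ := by
          have h5 : ∑' k, J k θ ≤ ∑' k, (ENNReal.ofReal (r ^ k) +
              if k ∈ Finset.range n then J k θ else 0) := by
            refine ENNReal.tsum_le_tsum fun k => ?_
            by_cases hk : n ≤ k
            · exact (hh k hk).le.trans le_self_add
            · rw [if_pos (Finset.mem_range.2 (by omega))]
              exact le_add_self
          refine ne_top_of_le_ne_top ?_ h5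
          rw [ENNReal.tsum_add]
          refine ENNReal.add_ne_top.2 ⟨?_, ?_⟩
          · have h6 : ∀ k, ENNReal.ofReal (r ^ k) = ENNReal.ofReal r ^ k := fun k =>
              ENNReal.ofReal_pow hr0.le k
            rw [tsum_congr h6, ENNReal.tsum_geometric]
            have h7 : ENNReal.ofReal r < 1 := by
              rw [← ENNReal.ofReal_one]
              exact (ENNReal.ofReal_lt_ofReal_iff (by norm_num)).2 hr1
            exact ENNReal.inv_ne_top.2 (tsub_pos_of_lt h7).ne'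
          · rw [tsum_eq_sum (s := Finset.range n) (fun k hk => if_neg hk)]
            refine (ENNReal.sum_lt_top.2 fun k hk => ?_).ne
            rw [if_pos hk]
            exact (hfin k θ hθ2).lt_top
        exact h4 hθ1
      obtain ⟨k, hk, hJ⟩ := h3
      rw [Set.mem_iUnion]
      refine ⟨(k - n, ⌊θ / (1 / 2) ^ k⌋), ?_⟩
      rw [ht]
      show θ ∈ if ⌊θ / (1 / 2) ^ k⌋ ∈ B (k - n + n) then dyI (k - n + n) ⌊θ / (1 / 2) ^ k⌋ else ∅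
      rw [Nat.sub_add_cancel hk, if_pos ((hB k _).2 ⟨θ, hθ2, dy_mem k θ, hJ⟩)]
      exact dy_mem k θ)
  have hval : ∀ n, ∑' x : ℕ × ℤ, ediam (t n x) ^ (s + ε) = ∑' k, g (k + n) := by
    intro n
    rw [ENNReal.tsum_prod' (f := fun x : ℕ × ℤ => ediam (t n x) ^ (s + ε))]
    refine tsum_congr fun k => ?_
    rw [hg, ht]
    show ∑' j : ℤ, ediam (if j ∈ B (k + n) then dyI (k + n) j else ∅) ^ (s + ε) = _
    rw [tsum_eq_sum (s := B (k + n)) (fun j hj => by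
      rw [if_neg hj, Metric.ediam_empty, ENNReal.zero_rpow_of_pos hse])]
    rw [Finset.sum_congr rfl fun j hj => by rw [if_pos hj, dy_diam], Finset.sum_const,
      nsmul_eq_mul]
  have h3 : liminf (fun n => ∑' x : ℕ × ℤ, ediam (t n x) ^ (s + ε)) atTop = 0 := by
    rw [show (fun n => ∑' x : ℕ × ℤ, ediam (t n x) ^ (s + ε)) = fun n => ∑' k, g (k + n) from
      funext hval]
    exact hlim.liminf_eq
  rw [h3] at hmeas
  exact nonpos_iff_eq_zero.1 hmeas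

/-- PROOF. Let `0 < ε`, `s' = s + ε`, `m ∈ ℤ`; it is enough that `μH[s'] (E ∩ [m, m+1]) = 0` for the set `E`
(`dimH_le_of_hausdorffMeasure_ne_top`, `dimH_iUnion`, then `ε → 0`). Let `I_{k,j} = [j 2^{-k}, (j+1) 2^{-k})`. Call `(k, j)` bad
if `I_{k,j}` contains a `θ ∈ [m, m+1]` with `J k θ ≥ 2^{-ε k}`. If `θ ∈ E` then `J k θ ≥ 2^{-ε k}` for infinitely many `k`
(otherwise the sum converges: but see the remark), so `E ∩ [m, m+1] ⊆ ⋃_{k ≥ n} ⋃_{(k,j) bad} I_{k,j}` for every `n`. If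
`(k, j)` is bad then `Js k φ ≥ 2^{-ε k} / C` on `I_{k,j}` (all `φ ∈ I_{k,j}` are at distance `≤ 2^{-k}` from `θ`), so with
`n_k` the number of bad `j`: `n_k 2^{-k} 2^{-ε k} ≤ C ∫_{[m-1, m+2]} Js k`, and `∑_k n_k 2^{-k s'} ≤
C ∑_k 2^{k (1 - s)} ∫_{[m-1,m+2]} Js k < ∞`. So the `s'`-measure of `E ∩ [m, m+1]` is `≤ ∑_{k ≥ n} n_k 2^{-k s'} → 0`
(`Measure.hausdorffMeasure_le_liminf_tsum`, with the countable index set of the bad `(k, j)`, `k ≥ n`).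
REMARK: single terms `J k θ = ∞` are allowed only for `θ` with `Js k = ∞` on an interval, impossible for
`2^{k(1-s)} ∫ Js k < ∞`; so every `J k θ` is finite and a sum `∑ J k θ = ∞` has infinitely many terms
`≥ 2^{-ε k}`. -/
theorem dyad {s : ℝ} (hs : 0 < s) (hs1 : s < 1) {J Js : ℕ → ℝ → ℝ≥0∞} {C : ℝ≥0∞} (hC : C ≠ ⊤)
    (h1 : ∀ (k : ℕ) (θ φ : ℝ), |φ - θ| ≤ (1 / 2) ^ k → J k θ ≤ C * Js k φ)
    (h2 : ∀ a b : ℝ, ∑' k : ℕ, ENNReal.ofReal ((2 : ℝ) ^ ((k : ℝ) * (1 - s))) *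
      ∫⁻ φ in Icc a b, Js k φ < ⊤) :
    dimH {θ : ℝ | ∑' k : ℕ, J k θ = ⊤} ≤ ENNReal.ofReal s := by
  refine ENNReal.le_of_forall_pos_le_add fun ε hε _ => ?_
  have hse : 0 ≤ s + (ε : ℝ) := by positivity
  have hE : {θ : ℝ | ∑' k : ℕ, J k θ = ⊤} ⊆
      ⋃ m : ℤ, ({θ : ℝ | ∑' k : ℕ, J k θ = ⊤} ∩ Icc (m : ℝ) (m + 1)) := by
    intro θ hθ
    rw [Set.mem_iUnion]
    exact ⟨⌊θ⌋, hθ, Int.floor_le θ, (Int.lt_floor_add_one θ).le⟩
  refine (dimH_mono hE).trans ?_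
  rw [dimH_iUnion]
  refine iSup_le fun m => ?_
  have h3 := dy_piece hs hC h1 h2 (ε := ε) (by exact_mod_cast hε) m
  have h4 : μH[((Real.toNNReal (s + ε) : ℝ≥0) : ℝ)]
      ({θ : ℝ | ∑' k : ℕ, J k θ = ⊤} ∩ Icc (m : ℝ) (m + 1)) ≠ ⊤ := by
    rw [Real.coe_toNNReal _ hse, h3]
    exact ENNReal.zero_ne_top
  refine (dimH_le_of_hausdorffMeasure_ne_top h4).trans ?_
  show ENNReal.ofReal (s + ε) ≤ ENNReal.ofReal s + ε
  rw [ENNReal.ofReal_add hs.le (by positivity), ENNReal.ofReal_coe_nnreal]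

end H65K
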