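import Pool.Agent.H.MP_215299_an.KD.Grow

/-! # Distances from the boundary -/

set_option autoImplicit false

open Complex Metric Set MeasureTheory Filter Topology

namespace H65K

variable {f F : ℂ → ℂ}

private theorem Geo_open (hf : Schl f) : IsOpen (f '' ball 0 1) :=
  isOpen_im isOpen_ball hf.diff hf.inj

theorem dd_pos (hf : Schl f) {w : ℂ} (hw : w ∈ f '' ball 0 1) : 0 < dd f w := by
  unfold dd
  rw [← (Geo_open hf).isClosed_compl.notMem_iff_infDist_pos (dd_zero hf).1]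
  exact fun h => h hw

theorem oo_pos (hf : Schl f) (hF : ∀ z ∈ ball (0 : ℂ) 1, F (f z) = z) {w : ℂ}
    (hw : w ∈ f '' ball 0 1) : 0 < oo F w ∧ oo F w ≤ 1 := by
  obtain ⟨z, hz, rfl⟩ := hw
  unfold oo
  rw [hF z hz]
  rw [mem_ball_zero_iff] at hz
  have h0 := norm_nonneg z
  constructor <;> nlinarith

/-- PROOF: `dd_zero`. -/
theorem dd_le (hf : Schl f) (w : ℂ) : dd f w ≤ ‖w‖ + 1 := by
  have h1 : infDist w (f '' ball 0 1)ᶜ ≤ infDist 0 (f '' ball 0 1)ᶜ + dist w 0 :=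
    infDist_le_infDist_add_dist
  have h2 := (dd_zero hf).2
  unfold dd at h2 ⊢
  rw [dist_zero_right] at h1
  linarith

private theorem Geo_disc {a ζ : ℂ} (ha : ‖a‖ < 1) (hζ : ‖ζ‖ < 1) :
    1 - (starRingEnd ℂ) a * ζ ≠ 0 ∧ ‖(ζ - a) / (1 - (starRingEnd ℂ) a * ζ)‖ < 1 := by
  have h1 : 1 - (starRingEnd ℂ) a * ζ ≠ 0 := by
    intro h
    have h2 : (starRingEnd ℂ) a * ζ = 1 := (sub_eq_zero.1 h).symm
    have h3 : ‖(starRingEnd ℂ) a * ζ‖ = 1 := by rw [h2, norm_one]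
    rw [norm_mul, RCLike.norm_conj] at h3
    have h4 := norm_nonneg a
    have h5 := norm_nonneg ζ
    nlinarith
  refine ⟨h1, ?_⟩
  rw [norm_div, div_lt_one (norm_pos_iff.2 h1)]
  have h2 : ‖ζ - a‖ ^ 2 < ‖1 - (starRingEnd ℂ) a * ζ‖ ^ 2 := by
    have h3 : ‖1 - (starRingEnd ℂ) a * ζ‖ ^ 2 - ‖ζ - a‖ ^ 2 = (1 - ‖a‖ ^ 2) * (1 - ‖ζ‖ ^ 2) := by
      rw [← Complex.normSq_eq_norm_sq, ← Complex.normSq_eq_norm_sq, ← Complex.normSq_eq_norm_sq,
        ← Complex.normSq_eq_norm_sq]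
      simp only [Complex.normSq_apply, Complex.sub_re, Complex.sub_im, Complex.one_re,
        Complex.one_im, Complex.mul_re, Complex.mul_im, Complex.conj_re, Complex.conj_im]
      ring
    have h4 : 0 < 1 - ‖a‖ ^ 2 := by
      have := norm_nonneg a
      nlinarith
    have h5 : 0 < 1 - ‖ζ‖ ^ 2 := by
      have := norm_nonneg ζ
      nlinarith
    have h6 := mul_pos h4 h5
    linarith
  exact lt_of_pow_lt_pow_left₀ 2 (norm_nonneg _) h2

/-- Schwarz-Pick. PROOF: `F` maps `ball w (dd f w)` into the unit disc; compose with the automorphism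
`ζ ↦ (ζ - a) / (1 - conj a ζ)`, `a = F w`, whose derivative at `a` is `1 / (1 - |a|²)`, and apply
`Complex.norm_deriv_le_div_of_mapsTo_ball`. -/
theorem geoA (hf : Schl f) (hF : ∀ z ∈ ball (0 : ℂ) 1, F (f z) = z) {w : ℂ}
    (hw : w ∈ f '' ball 0 1) : ‖deriv F w‖ ≤ oo F w / dd f w := by
  have hd := dd_pos hf hw
  have ho := (oo_pos hf hF hw).1
  have hsub : ball w (dd f w) ⊆ f '' ball 0 1 := ball_infDist_compl_subset
  have hFd : DifferentiableOn ℂ F (f '' ball 0 1) := diff_inv isOpen_ball hf.diff hf.inj hF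
  have hFm : ∀ x ∈ f '' ball 0 1, ‖F x‖ < 1 := by
    rintro x ⟨z, hz, rfl⟩
    rw [hF z hz]
    exact mem_ball_zero_iff.1 hz
  obtain ⟨a, ha⟩ : ∃ a, a = F w := ⟨_, rfl⟩
  have ha1 : ‖a‖ < 1 := by
    rw [ha]
    exact hFm w hw
  have hφd : ∀ ζ : ℂ, ‖ζ‖ < 1 →
      HasDerivAt (fun ζ : ℂ => (ζ - a) / (1 - (starRingEnd ℂ) a * ζ))
        ((1 * (1 - (starRingEnd ℂ) a * ζ) - (ζ - a) * (-((starRingEnd ℂ) a * 1))) /
          (1 - (starRingEnd ℂ) a * ζ) ^ 2) ζ := by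
    intro ζ hζ
    have h1 := (Geo_disc ha1 hζ).1
    refine HasDerivAt.div ((hasDerivAt_id ζ).sub_const a) ?_ h1
    exact ((hasDerivAt_id ζ).const_mul ((starRingEnd ℂ) a)).const_sub 1
  have hG0 : (F w - a) / (1 - (starRingEnd ℂ) a * F w) = 0 := by
    rw [← ha, sub_self, zero_div]
  have h1 := Complex.norm_deriv_le_div_of_mapsTo_ball (c := w) (R₁ := dd f w) (R₂ := 1)
    (f := fun x => (F x - a) / (1 - (starRingEnd ℂ) a * F x)) ?_ ?_ hd
  · have hFw : HasDerivAt F (deriv F w) w :=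
      (hFd.differentiableAt ((Geo_open hf).mem_nhds hw)).hasDerivAt
    have h2 := (hφd (F w) (hFm w hw)).comp w hFw
    have h3 : deriv (fun x => (F x - a) / (1 - (starRingEnd ℂ) a * F x)) w =
        (1 * (1 - (starRingEnd ℂ) a * F w) - (F w - a) * (-((starRingEnd ℂ) a * 1))) /
          (1 - (starRingEnd ℂ) a * F w) ^ 2 * deriv F w := h2.deriv
    have h4 : (1 - (starRingEnd ℂ) a * F w) = ((oo F w : ℝ) : ℂ) := by
      rw [ha, mul_comm, Complex.mul_conj, Complex.normSq_eq_norm_sq]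
      unfold oo
      push_cast
      ring
    rw [h3, h4, ← ha, sub_self, zero_mul, sub_zero, one_mul] at h1
    have h5 : ((oo F w : ℝ) : ℂ) / ((oo F w : ℝ) : ℂ) ^ 2 = (((oo F w)⁻¹ : ℝ) : ℂ) := by
      have h6 : ((oo F w : ℝ) : ℂ) ≠ 0 := by exact_mod_cast ho.ne'
      push_cast
      field_simp
    rw [h5, norm_mul, Complex.norm_real, Real.norm_eq_abs, abs_of_pos (inv_pos.2 ho)] at h1
    rw [le_div_iff₀ hd]
    rw [inv_mul_eq_div, div_le_iff₀ ho, one_div, inv_mul_eq_div, le_div_iff₀ hd] at h1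
    exact h1
  · intro x hx
    refine DifferentiableAt.differentiableWithinAt ?_
    have h2 := (hφd (F x) (hFm x (hsub hx))).differentiableAt
    have h3 := hFd.differentiableAt ((Geo_open hf).mem_nhds (hsub hx))
    exact h2.comp x h3
  · intro x hx
    simp only
    rw [hG0, mem_closedBall_zero_iff]
    exact (Geo_disc ha1 (hFm x (hsub hx))).2.le

/-- PROOF: `shift` at `F w` and `deriv_inv`. -/
theorem geoB (hf : Schl f) (hF : ∀ z ∈ ball (0 : ℂ) 1, F (f z) = z) {w : ℂ}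
    (hw : w ∈ f '' ball 0 1) : oo F w ≤ 4 * dd f w * ‖deriv F w‖ := by
  obtain ⟨z, hz, rfl⟩ := hw
  have h1 := shift hf.diff hf.inj hz
  obtain ⟨h2, h3⟩ := deriv_inv isOpen_ball hf.diff hf.inj hF hz
  have h4 : (1 - ‖z‖ ^ 2) * ‖deriv f z‖ / 4 ≤ dd f (f z) := by
    unfold dd
    rw [le_infDist (dd_zero hf).1]
    intro y hy
    by_contra hcon
    push Not at hcon
    exact hy (h1 (by rw [mem_ball, dist_comm]; exact hcon))
  unfold oo
  rw [hF z hz, h3, norm_inv]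
  have h5 : 0 < ‖deriv f z‖ := norm_pos_iff.2 h2
  have h6 : (1 - ‖z‖ ^ 2) * ‖deriv f z‖ ≤ 4 * dd f (f z) := by linarith
  rw [← div_eq_mul_inv, le_div_iff₀ h5]
  exact h6

/-- PROOF: let `w₀ ∉ f(𝔻)` with `|w - w₀| = dd f w =: d` (`IsClosed.exists_infDist_eq_dist`), `z = F w`. By `growth` for the
function of `Schl.omit`: `|w₀| |w| / d ≤ 8 / (1 - |z|)²`, `|w₀| ≥ 1/4` (`quarter`), so `(1 - |z|)² ≤ 256 d`. -/
theorem geoC (hf : Schl f) (hF : ∀ z ∈ ball (0 : ℂ) 1, F (f z) = z) {w : ℂ}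
    (hw : w ∈ f '' ball 0 1) (h8 : 1 / 8 ≤ ‖w‖) : oo F w ^ 2 ≤ 1024 * dd f w := by
  have hd := dd_pos hf hw
  obtain ⟨w₀, hw₀, hdist⟩ := (Geo_open hf).isClosed_compl.exists_infDist_eq_dist (dd_zero hf).1 w
  have hdd : dd f w = ‖w₀ - w‖ := by
    unfold dd
    rw [hdist, dist_comm, dist_eq_norm]
  obtain ⟨z, hz, rfl⟩ := hw
  have h1 := growth (hf.omit hw₀).1 hz
  have h2 := quarter hf hw₀
  have hz1 : ‖z‖ < 1 := mem_ball_zero_iff.1 hz
  have hz0 := norm_nonneg z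
  have h1z : 0 < 1 - ‖z‖ := by linarith
  rw [norm_div, norm_mul, ← hdd] at h1
  have h3 : (1 / 4 : ℝ) * (1 / 8) ≤ ‖w₀‖ * ‖f z‖ :=
    mul_le_mul h2 h8 (by norm_num) (norm_nonneg _)
  have h4 : (1 / 4 : ℝ) * (1 / 8) / dd f (f z) ≤ 8 * ‖z‖ / (1 - ‖z‖) ^ 2 :=
    (div_le_div_of_nonneg_right h3 hd.le).trans h1
  rw [div_le_div_iff₀ hd (by positivity)] at h4
  have h5 : (1 - ‖z‖) ^ 2 ≤ 256 * dd f (f z) := by
    have h6 : 8 * ‖z‖ * dd f (f z) ≤ 8 * 1 * dd f (f z) := by gcongr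
    linarith
  unfold oo
  rw [hF z hz]
  have h6 : (1 - ‖z‖ ^ 2) ^ 2 = (1 - ‖z‖) ^ 2 * (1 + ‖z‖) ^ 2 := by ring
  have h7 : (1 + ‖z‖) ^ 2 ≤ 4 := by nlinarith
  have h8' : (1 - ‖z‖) ^ 2 * (1 + ‖z‖) ^ 2 ≤ (1 - ‖z‖) ^ 2 * 4 :=
    mul_le_mul_of_nonneg_left h7 (sq_nonneg _)
  linarith

end H65K
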