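import Pool.Agent.H.MP_215299_an.KD.Geo

/-! # Comparability on small discs -/

set_option autoImplicit false

open Complex Metric Set MeasureTheory Filter Topology

namespace H65K

variable {f F : ℂ → ℂ}

/-- PROOF: `dd f` is 1-Lipschitz (`infDist_le_infDist_add_dist`). On the segment `γ t = w + t (w' - w)` one has
`dd f (γ t) ≥ (3/4) dd f w > 0`, so `γ t ∈ f(𝔻)`; `g t = log (oo F (γ t))` has `|g'| ≤ 2 |F| |F'| |w' - w| / oo ≤
2 |w' - w| / dd f (γ t) ≤ 2/3` (`geoA`), so `log oo(w) - log oo(w') ≤ 2/3` and `e^{2/3} ≤ 2`. -/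
theorem harn (hf : Schl f) (hF : ∀ z ∈ ball (0 : ℂ) 1, F (f z) = z) {w w' : ℂ}
    (hw : w ∈ f '' ball 0 1) (h : ‖w' - w‖ ≤ dd f w / 4) :
    w' ∈ f '' ball 0 1 ∧ oo F w ≤ 2 * oo F w' ∧ 3 / 4 * dd f w ≤ dd f w' ∧
      dd f w' ≤ 5 / 4 * dd f w := by
  have hd : 0 < dd f w := dd_pos hf hw
  have hO : IsOpen (f '' ball 0 1) := isOpen_im isOpen_ball hf.diff hf.inj
  have hFd : DifferentiableOn ℂ F (f '' ball 0 1) := diff_inv isOpen_ball hf.diff hf.inj hF
  -- points near `w`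
  have hnear : ∀ v : ℂ, ‖v - w‖ ≤ dd f w / 4 → v ∈ f '' ball 0 1 ∧ 3 / 4 * dd f w ≤ dd f v ∧
      dd f v ≤ 5 / 4 * dd f w := by
    intro v hv
    have h1 : dd f w ≤ dd f v + ‖v - w‖ := by
      have := infDist_le_infDist_add_dist (s := (f '' ball 0 1)ᶜ) (x := w) (y := v)
      rwa [dist_comm, dist_eq_norm] at this
    have h2 : dd f v ≤ dd f w + ‖v - w‖ := by
      have := infDist_le_infDist_add_dist (s := (f '' ball 0 1)ᶜ) (x := v) (y := w)
      rwa [dist_eq_norm] at this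
    refine ⟨?_, by linarith, by linarith⟩
    by_contra hcon
    have h3 : dd f v = 0 := infDist_zero_of_mem hcon
    linarith
  obtain ⟨hw', h34, h54⟩ := hnear w' h
  refine ⟨hw', ?_, h34, h54⟩
  set γ : ℝ → ℂ := fun t => w + (t : ℂ) * (w' - w) with hγ
  have hγn : ∀ t ∈ Icc (0 : ℝ) 1, ‖γ t - w‖ ≤ dd f w / 4 := by
    intro t ht
    have e : γ t - w = (t : ℂ) * (w' - w) := by
      simp only [hγ]
      ring
    rw [e, norm_mul, Complex.norm_real, Real.norm_eq_abs, abs_of_nonneg ht.1]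
    exact (mul_le_of_le_one_left (norm_nonneg _) ht.2).trans h
  have hγd : ∀ t : ℝ, HasDerivAt γ (w' - w) t := by
    intro t
    have h1 : HasDerivAt (fun t : ℝ => (t : ℂ)) 1 t := Complex.ofRealCLM.hasDerivAt
    have h2 := (h1.mul_const (w' - w)).const_add w
    rwa [one_mul] at h2
  have hder : ∀ t ∈ Icc (0 : ℝ) 1, HasDerivAt (fun t => Real.log (oo F (γ t)))
      (-(2 * inner ℝ (F (γ t)) (deriv F (γ t) * (w' - w))) / oo F (γ t)) t := by
    intro t ht
    obtain ⟨h1, h2, -⟩ := hnear _ (hγn t ht)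
    have h3 : HasDerivAt F (deriv F (γ t)) (γ t) :=
      ((hFd _ h1).differentiableAt (hO.mem_nhds h1)).hasDerivAt
    have h4 : HasDerivAt (fun t => F (γ t)) (deriv F (γ t) * (w' - w)) t := h3.comp t (hγd t)
    have h5 := (h4.norm_sq.const_sub 1)
    have h6 := (oo_pos hf hF h1).1
    exact h5.log h6.ne'
  have hbd : ∀ t ∈ Icc (0 : ℝ) 1,
      ‖-(2 * inner ℝ (F (γ t)) (deriv F (γ t) * (w' - w))) / oo F (γ t)‖ ≤ 2 / 3 := by
    intro t ht
    obtain ⟨h1, h2, -⟩ := hnear _ (hγn t ht)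
    have ho := (oo_pos hf hF h1).1
    have hg := geoA hf hF h1
    have hdv : 0 < dd f (γ t) := by linarith
    have hF1 : ‖F (γ t)‖ ≤ 1 := by
      have h3 : 0 < 1 - ‖F (γ t)‖ ^ 2 := ho
      nlinarith [norm_nonneg (F (γ t))]
    have h4 : |inner ℝ (F (γ t)) (deriv F (γ t) * (w' - w))| ≤
        oo F (γ t) / dd f (γ t) * (dd f w / 4) := by
      refine (abs_real_inner_le_norm _ _).trans ?_
      rw [norm_mul]
      calc ‖F (γ t)‖ * (‖deriv F (γ t)‖ * ‖w' - w‖) ≤ 1 * (‖deriv F (γ t)‖ * ‖w' - w‖) := by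
            gcongr
        _ ≤ 1 * (oo F (γ t) / dd f (γ t) * (dd f w / 4)) := by gcongr
        _ = _ := one_mul _
    rw [Real.norm_eq_abs, abs_div, abs_neg, abs_mul, abs_two, abs_of_pos ho, div_le_iff₀ ho]
    have h5 : oo F (γ t) / dd f (γ t) * (dd f w / 4) ≤ oo F (γ t) / 3 := by
      rw [div_mul_eq_mul_div, div_le_iff₀ hdv]
      nlinarith
    linarith
  have hmv := norm_image_sub_le_of_norm_deriv_le_segment_01'
    (fun t ht => (hder t ht).hasDerivWithinAt) (fun t ht => hbd t ⟨ht.1, ht.2.le⟩)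
  have e0 : γ 0 = w := by simp [hγ]
  have e1 : γ 1 = w' := by simp [hγ]
  rw [e0, e1, Real.norm_eq_abs] at hmv
  have ho := (oo_pos hf hF hw).1
  have ho' := (oo_pos hf hF hw').1
  have h1 : Real.log (oo F w) ≤ Real.log (oo F w') + 2 / 3 := by
    have := (abs_le.1 hmv).1
    linarith
  have h2 : Real.exp (2 / 3) ≤ 2 := by
    have h3 : Real.exp (2 / 3) ^ 3 = Real.exp 1 ^ 2 := by
      rw [← Real.exp_nat_mul, ← Real.exp_nat_mul]
      norm_num
    have h4 := Real.exp_one_lt_d9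
    have h5 : Real.exp 1 ^ 2 ≤ 2 ^ 3 := by
      have h6 := pow_le_pow_left₀ (Real.exp_pos 1).le h4.le 2
      linarith
    rw [← h3] at h5
    exact le_of_pow_le_pow_left₀ three_ne_zero zero_le_two h5
  calc oo F w = Real.exp (Real.log (oo F w)) := (Real.exp_log ho).symm
    _ ≤ Real.exp (Real.log (oo F w') + 2 / 3) := Real.exp_le_exp.2 h1
    _ = oo F w' * Real.exp (2 / 3) := by rw [Real.exp_add, Real.exp_log ho']
    _ ≤ oo F w' * 2 := by gcongr
    _ = 2 * oo F w' := mul_comm _ _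

end H65K
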