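import Pool.Agent.H.MP_215299_an.KD.Geo
import Pool.Agent.H.MP_215299_an.KD.VolL

/-! # The area integral -/

set_option autoImplicit false

open Complex Metric Set MeasureTheory Filter Topology
open scoped ENNReal

namespace H65K

variable {f F : ℂ → ℂ}

/-- the pointwise estimate -/
private theorem IntA_point {o d D p s : ℝ} (ho : 0 < o) (hd : 0 < d) (hs : s ≤ p - 1)
    (hB : o ≤ 4 * d * D) (hC : o ^ 2 ≤ 1024 * d) :
    (o / d) ^ p * d ^ (s - 1) ≤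
      16 * (1024 : ℝ) ^ (p - 1 - s) * (D ^ 2 * o ^ (2 * s - p)) := by
  have h1 : (o / d) ^ p * d ^ (s - 1) = (o / d) ^ 2 * o ^ (p - 2) * d ^ (s + 1 - p) := by
    have e1 : (o / d) ^ p = (o / d) ^ 2 * (o / d) ^ (p - 2) := by
      rw [← Real.rpow_natCast (o / d) 2, ← Real.rpow_add (div_pos ho hd)]
      congr 1
      push_cast
      ring
    have e2 : (o / d) ^ (p - 2) = o ^ (p - 2) * d ^ (-(p - 2)) := by
      rw [Real.div_rpow ho.le hd.le, Real.rpow_neg hd.le, div_eq_mul_inv]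
    have e3 : d ^ (-(p - 2)) * d ^ (s - 1) = d ^ (s + 1 - p) := by
      rw [← Real.rpow_add hd]
      congr 1
      ring
    rw [e1, e2, mul_assoc, mul_assoc, mul_assoc, e3]
  have h2 : (o / d) ^ 2 ≤ 16 * D ^ 2 := by
    have h3 : o / d ≤ 4 * D := by
      rw [div_le_iff₀ hd]
      linarith
    calc (o / d) ^ 2 ≤ (4 * D) ^ 2 := pow_le_pow_left₀ (div_pos ho hd).le h3 2
      _ = 16 * D ^ 2 := by ring
  have h4 : d ^ (s + 1 - p) ≤ (1024 : ℝ) ^ (p - 1 - s) * o ^ (2 * (s + 1 - p)) := by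
    have h5 : o ^ 2 / 1024 ≤ d := by linarith
    have h6 : 0 < o ^ 2 / 1024 := by positivity
    refine (Real.rpow_le_rpow_of_nonpos h6 h5 (by linarith)).trans (le_of_eq ?_)
    rw [Real.div_rpow (by positivity) (by norm_num), ← Real.rpow_natCast o 2,
      ← Real.rpow_mul ho.le, div_eq_mul_inv, ← Real.rpow_neg (by norm_num), mul_comm]
    congr 1
    congr 1
    ring
  have h7 : o ^ (p - 2) * o ^ (2 * (s + 1 - p)) = o ^ (2 * s - p) := by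
    rw [← Real.rpow_add ho]
    congr 1
    ring
  rw [h1]
  calc (o / d) ^ 2 * o ^ (p - 2) * d ^ (s + 1 - p)
      ≤ 16 * D ^ 2 * o ^ (p - 2) * ((1024 : ℝ) ^ (p - 1 - s) * o ^ (2 * (s + 1 - p))) := by
        gcongr
    _ = 16 * (1024 : ℝ) ^ (p - 1 - s) * (D ^ 2 * (o ^ (p - 2) * o ^ (2 * (s + 1 - p)))) := by ring
    _ = 16 * (1024 : ℝ) ^ (p - 1 - s) * (D ^ 2 * o ^ (2 * s - p)) := by rw [h7]

/-- PROOF: write `o = oo F w`, `d = dd f w`. By `geoB` `(o/d)² ≤ 16 |F'|²`, by `geoC` `d^{s+1-p} ≤ (o²/1024)^{s+1-p}`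
(`s + 1 - p ≤ 0`), so `(o/d)^p d^{s-1} = (o/d)² o^{p-2} d^{s+1-p} ≤ 16 · 1024^{p-1-s} |F'|² o^{2s-p}`. By `cov` with `Ψ = F`,
`U = f '' ball 0 1` (`isOpen_im`, `diff_inv`; `F '' U = ball 0 1`) the integral of `|F'|² o^{2s-p}` over `U` is
`∫_𝔻 (1 - |z|²)^{2s-p}`, finite by `discInt`. -/
theorem intA (hf : Schl f) (hF : ∀ z ∈ ball (0 : ℂ) 1, F (f z) = z) {p s : ℝ}
    (h1 : (p - 1) / 2 < s) (h2 : s ≤ p - 1) :
    ∫⁻ w in {w : ℂ | w ∈ f '' ball 0 1 ∧ 1 / 8 ≤ ‖w‖},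
      ENNReal.ofReal ((oo F w / dd f w) ^ p * dd f w ^ (s - 1)) < ⊤ := by
  have hU : IsOpen (f '' ball 0 1) := isOpen_im isOpen_ball hf.diff hf.inj
  have hFd : DifferentiableOn ℂ F (f '' ball 0 1) := diff_inv isOpen_ball hf.diff hf.inj hF
  have hFi : InjOn F (f '' ball 0 1) := by
    rintro _ ⟨z, hz, rfl⟩ _ ⟨z', hz', rfl⟩ h
    rw [hF z hz, hF z' hz'] at h
    rw [h]
  have hFU : F '' (f '' ball 0 1) = ball 0 1 := by
    ext z
    constructor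
    · rintro ⟨_, ⟨y, hy, rfl⟩, rfl⟩
      rw [hF y hy]
      exact hy
    · intro hz
      exact ⟨f z, ⟨z, hz, rfl⟩, hF z hz⟩
  have hA : MeasurableSet {w : ℂ | w ∈ f '' ball 0 1 ∧ 1 / 8 ≤ ‖w‖} :=
    hU.measurableSet.inter (measurableSet_le measurable_const measurable_norm)
  have hcov := cov hU hFd hFi (fun z => ENNReal.ofReal ((1 - ‖z‖ ^ 2) ^ (2 * s - p)))
  rw [hFU] at hcov
  have hfin : ∫⁻ z in ball (0 : ℂ) 1, ENNReal.ofReal ((1 - ‖z‖ ^ 2) ^ (2 * s - p)) < ⊤ :=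
    discInt (by linarith)
  have hle : ∫⁻ w in {w : ℂ | w ∈ f '' ball 0 1 ∧ 1 / 8 ≤ ‖w‖},
      ENNReal.ofReal ((oo F w / dd f w) ^ p * dd f w ^ (s - 1)) ≤
      ∫⁻ w in f '' ball 0 1, ENNReal.ofReal (16 * (1024 : ℝ) ^ (p - 1 - s)) *
        (ENNReal.ofReal (‖deriv F w‖ ^ 2) *
          ENNReal.ofReal ((1 - ‖F w‖ ^ 2) ^ (2 * s - p))) := by
    refine (setLIntegral_mono' hA fun w hw => ?_).trans (lintegral_mono_set fun w hw => hw.1)
    obtain ⟨ho, _⟩ := oo_pos hf hF hw.1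
    have hd := dd_pos hf hw.1
    have hC := geoC hf hF hw.1 hw.2
    rw [← ENNReal.ofReal_mul (by positivity), ← ENNReal.ofReal_mul (by positivity)]
    exact ENNReal.ofReal_le_ofReal (IntA_point ho hd h2 (geoB hf hF hw.1) hC)
  refine hle.trans_lt ?_
  rw [lintegral_const_mul' _ _ ENNReal.ofReal_ne_top, hcov]
  exact ENNReal.mul_lt_top ENNReal.ofReal_lt_top hfin

end H65K
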