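import Pool.Agent.H.MP_215299_an.KD.JDef
import Pool.Agent.H.MP_215299_an.KD.Harn

/-! # Comparison of the pieces for neighbouring directions -/

set_option autoImplicit false

open Complex Metric Set MeasureTheory Filter Topology
open scoped ENNReal

namespace H65K

variable {f F : ℂ → ℂ}

private theorem JA_rot (r θ φ : ℝ) (hr : 0 < r) :
    ‖(r : ℂ) * exp (φ * I) - r * exp (θ * I)‖ ≤ r * |φ - θ| := by
  have h1 : (r : ℂ) * exp (φ * I) - r * exp (θ * I) =
      r * (exp (θ * I) * (exp (I * ((φ - θ : ℝ) : ℂ)) - 1)) := by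
    have h2 : exp (φ * I) = exp (θ * I) * exp (I * ((φ - θ : ℝ) : ℂ)) := by
      rw [← Complex.exp_add]
      congr 1
      push_cast
      ring
    rw [h2]
    ring
  rw [h1, norm_mul, norm_mul, Complex.norm_real, Real.norm_eq_abs, abs_of_pos hr,
    Complex.norm_exp_ofReal_mul_I, one_mul]
  exact mul_le_mul_of_nonneg_left (Real.norm_exp_I_mul_ofReal_sub_one_le) hr.le

private theorem JA_meas (hf : Schl f) (lo hi θ : ℝ) :
    MeasurableSet {r : ℝ | 0 < r ∧ (r : ℂ) * exp (θ * I) ∈ EE f lo hi} := by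
  have h1 : MeasurableSet (f '' ball 0 1) := (isOpen_im isOpen_ball hf.diff hf.inj).measurableSet
  have h2 : Measurable fun w : ℂ => dd f w / (9 * ‖w‖) :=
    (measurable_infDist).div (measurable_norm.const_mul 9)
  have h3 : MeasurableSet (EE f lo hi) := by
    have h4 : EE f lo hi = f '' ball 0 1 ∩ ({w | 1 / 8 ≤ ‖w‖} ∩
        ({w | lo < dd f w / (9 * ‖w‖)} ∩ {w | dd f w / (9 * ‖w‖) ≤ hi})) := rfl
    rw [h4]
    exact h1.inter ((measurableSet_le measurable_const measurable_norm).inter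
      ((measurableSet_lt measurable_const h2).inter (measurableSet_le h2 measurable_const)))
  have h5 : Measurable fun r : ℝ => (r : ℂ) * exp (θ * I) := by fun_prop
  exact measurableSet_Ioi.inter (h5 h3)

/-- PROOF: for `w = r e^{iθ} ∈ EE f (2^{-k-1}) (2^{-k})` and `w' = r e^{iφ}`: `|w - w'| ≤ r |φ - θ| ≤ r 2^{-k} ≤ dd f w / 4`, as
`dd f w > 9 r 2^{-k-1}`. By `harn` `w' ∈ EE f (2^{-k-2}) (2 · 2^{-k})` and `oo F w / dd f w ≤ (5/2) oo F w' / dd f w'`. So the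
domain of integration of `JJ p f F k θ` is contained in that of `JS p f F k φ`, with the integrands comparable. -/
theorem JJ_le_JS (hf : Schl f) (hF : ∀ z ∈ ball (0 : ℂ) 1, F (f z) = z) {p : ℝ} (hp : 0 ≤ p)
    (k : ℕ) {θ φ : ℝ} (h : |φ - θ| ≤ (1 / 2) ^ k) :
    JJ p f F k θ ≤ ENNReal.ofReal ((5 / 2) ^ p) * JS p f F k φ := by
  have hk : (0 : ℝ) < (1 / 2) ^ k := by positivity
  have key : ∀ r : ℝ, 0 < r → (r : ℂ) * exp (θ * I) ∈ EE f ((1 / 2) ^ (k + 1)) ((1 / 2) ^ k) →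
      (r : ℂ) * exp (φ * I) ∈ EE f ((1 / 2) ^ (k + 2)) (2 * (1 / 2) ^ k) ∧
      oo F (r * exp (θ * I)) / dd f (r * exp (θ * I)) ≤
        5 / 2 * (oo F (r * exp (φ * I)) / dd f (r * exp (φ * I))) := by
    intro r hr hw
    obtain ⟨h1, h2, h3, h4⟩ := hw
    have hrot := JA_rot r θ φ hr
    have hn : ∀ t : ℝ, ‖(r : ℂ) * exp (t * I)‖ = r := by
      intro t
      rw [norm_mul, Complex.norm_real, Real.norm_eq_abs, abs_of_pos hr,
        Complex.norm_exp_ofReal_mul_I, mul_one]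
    rw [hn] at h2 h3 h4
    generalize (r : ℂ) * exp (θ * I) = w at *
    have hn' := hn φ
    generalize (r : ℂ) * exp (φ * I) = w' at *
    have h9 : (0 : ℝ) < 9 * r := by linarith
    rw [lt_div_iff₀ h9] at h3
    rw [div_le_iff₀ h9] at h4
    rw [pow_succ] at h3
    have h5 : ‖w' - w‖ ≤ dd f w / 4 := by
      have h6 : r * |φ - θ| ≤ r * (1 / 2) ^ k := mul_le_mul_of_nonneg_left h hr.le
      have h7 : 0 < r * (1 / 2) ^ k := mul_pos hr hk
      linarith
    obtain ⟨g1, g2, g3, g4⟩ := harn hf hF h1 h5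
    have hd : 0 < dd f w := dd_pos hf h1
    have hd' : 0 < dd f w' := dd_pos hf g1
    have ho' : 0 < oo F w' := (oo_pos hf hF g1).1
    refine ⟨⟨g1, ?_, ?_, ?_⟩, ?_⟩
    · rw [hn']
      exact h2
    · rw [hn', lt_div_iff₀ h9, pow_succ, pow_succ]
      have h7 : 0 < (1 / 2 : ℝ) ^ k * (9 * r) := mul_pos hk h9
      nlinarith
    · rw [hn', div_le_iff₀ h9]
      have h7 : 0 < (1 / 2 : ℝ) ^ k * (9 * r) := mul_pos hk h9
      nlinarith
    · rw [div_le_iff₀ hd, ← mul_div_assoc, div_mul_eq_mul_div, le_div_iff₀ hd']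
      nlinarith
  unfold JJ JS JR
  have hA := JA_meas hf ((1 / 2) ^ (k + 1)) ((1 / 2) ^ k) θ
  have hsub : {r : ℝ | 0 < r ∧ (r : ℂ) * exp (θ * I) ∈ EE f ((1 / 2) ^ (k + 1)) ((1 / 2) ^ k)} ⊆
      {r : ℝ | 0 < r ∧ (r : ℂ) * exp (φ * I) ∈ EE f ((1 / 2) ^ (k + 2)) (2 * (1 / 2) ^ k)} :=
    fun r hr => ⟨hr.1, (key r hr.1 hr.2).1⟩
  rw [← lintegral_const_mul' _ _ ENNReal.ofReal_ne_top]
  refine (setLIntegral_mono' hA fun r hr => ?_).trans (lintegral_mono_set hsub)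
  obtain ⟨k1, k2⟩ := key r hr.1 hr.2
  have hd : 0 < dd f (r * exp (θ * I)) := dd_pos hf hr.2.1
  have ho : 0 < oo F (r * exp (θ * I)) := (oo_pos hf hF hr.2.1).1
  have hd' : 0 < dd f (r * exp (φ * I)) := dd_pos hf k1.1
  have ho' : 0 < oo F (r * exp (φ * I)) := (oo_pos hf hF k1.1).1
  rw [← ENNReal.ofReal_mul (by positivity), ← Real.mul_rpow (by norm_num) (by positivity)]
  exact ENNReal.ofReal_le_ofReal (Real.rpow_le_rpow (by positivity) k2 hp)

end H65K
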