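import Pool.Agent.H.MP_215299_an.KD.Defs

/-! # Polar coordinates -/

set_option autoImplicit false

open Complex Metric Set MeasureTheory Filter Topology
open scoped ENNReal

namespace H65K

private noncomputable def PolC_G (g : ℂ → ℝ≥0∞) (φ : ℝ) : ℝ≥0∞ :=
  ∫⁻ r in Ioi (0 : ℝ), ENNReal.ofReal r * g (r * exp (φ * I))

private theorem PolC_one (g : ℂ → ℝ≥0∞) (hg : Measurable g) :
    ∫⁻ φ in Ioo (-Real.pi) Real.pi, PolC_G g φ = ∫⁻ w, g w := by
  rw [← Complex.lintegral_comp_polarCoord_symm, polarCoord_target, Measure.volume_eq_prod,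
    setLIntegral_prod_symm]
  · refine lintegral_congr fun φ => ?_
    unfold PolC_G
    refine lintegral_congr fun r => ?_
    rw [Complex.polarCoord_symm_apply, Complex.exp_mul_I, smul_eq_mul, Complex.ofReal_cos,
      Complex.ofReal_sin]
  · have h1 : Measurable fun p : ℝ × ℝ => Complex.polarCoord.symm p := by
      have h2 : (fun p : ℝ × ℝ => Complex.polarCoord.symm p) =
          fun p : ℝ × ℝ => (p.1 : ℂ) * (Real.cos p.2 + Real.sin p.2 * Complex.I) :=
        funext fun p => Complex.polarCoord_symm_apply p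
      rw [h2]
      fun_prop
    exact ((ENNReal.measurable_ofReal.comp measurable_fst).smul (hg.comp h1)).aemeasurable

private theorem PolC_per (g : ℂ → ℝ≥0∞) (φ : ℝ) (k : ℤ) :
    PolC_G g (φ + 2 * Real.pi * k) = PolC_G g φ := by
  unfold PolC_G
  have h : exp (((φ + 2 * Real.pi * k : ℝ) : ℂ) * I) = exp (φ * I) := by
    rw [Complex.exp_eq_exp_iff_exists_int]
    refine ⟨k, ?_⟩
    push_cast
    ring
  rw [h]

private theorem PolC_sh (g : ℂ → ℝ≥0∞) (hg : Measurable g) (k : ℤ) :
    ∫⁻ φ in Ioc (-Real.pi + 2 * Real.pi * k) (Real.pi + 2 * Real.pi * k), PolC_G g φ =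
      ∫⁻ w, g w := by
  rw [← PolC_one g hg, setLIntegral_congr Ioo_ae_eq_Ioc, ← lintegral_indicator measurableSet_Ioc,
    ← lintegral_indicator measurableSet_Ioc,
    ← lintegral_add_right_eq_self _ (2 * Real.pi * (k : ℝ))]
  refine lintegral_congr fun φ => ?_
  by_cases h : φ ∈ Ioc (-Real.pi) Real.pi
  · rw [indicator_of_mem h, indicator_of_mem, PolC_per]
    exact ⟨by linarith [h.1], by linarith [h.2]⟩
  · rw [indicator_of_notMem h, indicator_of_notMem]
    exact fun h2 => h ⟨by linarith [h2.1], by linarith [h2.2]⟩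

private theorem PolC_n (g : ℂ → ℝ≥0∞) (hg : Measurable g) (m n : ℕ) :
    ∫⁻ φ in Ioc (-Real.pi - 2 * Real.pi * m) (-Real.pi - 2 * Real.pi * m + 2 * Real.pi * n),
      PolC_G g φ ≤ n * ∫⁻ w, g w := by
  induction n with
  | zero => simp
  | succ n ih =>
    have h1 : Ioc (-Real.pi - 2 * Real.pi * m) (-Real.pi - 2 * Real.pi * m +
        2 * Real.pi * ((n + 1 : ℕ) : ℝ)) ⊆
        Ioc (-Real.pi - 2 * Real.pi * m) (-Real.pi - 2 * Real.pi * m + 2 * Real.pi * n) ∪
        Ioc (-Real.pi + 2 * Real.pi * ((n - m : ℤ) : ℝ))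
          (Real.pi + 2 * Real.pi * ((n - m : ℤ) : ℝ)) := by
      intro y hy
      have h2 := hy.1
      have h3 := hy.2
      push_cast at h3
      by_cases h4 : y ≤ -Real.pi - 2 * Real.pi * m + 2 * Real.pi * n
      · exact Or.inl ⟨h2, h4⟩
      · right
        push Not at h4
        push_cast
        exact ⟨by linarith, by linarith⟩
    refine (lintegral_mono_set h1).trans ((lintegral_union_le _ _ _).trans ?_)
    rw [PolC_sh g hg]
    push_cast
    rw [add_mul, one_mul]
    exact add_le_add_left ih _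

/-- PROOF: `Complex.lintegral_comp_polarCoord_symm` and Tonelli: over `φ ∈ (-π, π)` the iterated integral is
`∫ g`; the inner integral is `2π`-periodic in `φ`, and `[a, b]` is covered by finitely many translates of
`[-π, π]`. -/
theorem polC (a b : ℝ) : ∃ N : ℕ, ∀ g : ℂ → ℝ≥0∞, Measurable g →
    ∫⁻ φ in Icc a b, ∫⁻ r in Ioi (0 : ℝ), ENNReal.ofReal r * g (r * exp (φ * I)) ≤
      N * ∫⁻ w, g w := by
  obtain ⟨m, hm⟩ := exists_nat_gt (-a)
  obtain ⟨n, hn⟩ := exists_nat_gt (b + Real.pi + 2 * Real.pi * m)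
  have hpi := Real.pi_gt_three
  refine ⟨n, fun g hg => ?_⟩
  refine (lintegral_mono_set ?_).trans (PolC_n g hg m n)
  intro y hy
  have h1 := hy.1
  have h2 := hy.2
  have h3 : (0 : ℝ) ≤ m := Nat.cast_nonneg m
  have h4 : (0 : ℝ) ≤ n := Nat.cast_nonneg n
  constructor
  · nlinarith
  · nlinarith

end H65K
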