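import Pool.Agent.H.MP_215299_an.KD.JDef
import Pool.Agent.H.MP_215299_an.KD.Geo

/-! # The integral along a line -/

set_option autoImplicit false

open Complex Metric Set MeasureTheory Filter Topology
open scoped ENNReal

namespace H65K

variable {f F : ℂ → ℂ}

private lemma JC_open (hf : Schl f) : IsOpen (f '' ball 0 1) :=
  isOpen_im isOpen_ball hf.diff hf.inj

private lemma JC_meas (hf : Schl f) (φ : ℝ) :
    MeasurableSet {x : ℝ | (x : ℂ) * exp (φ * I) ∈ f '' ball 0 1} := by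
  have h : Continuous fun x : ℝ => (x : ℂ) * exp (φ * I) := by fun_prop
  exact ((JC_open hf).preimage h).measurableSet

private lemma JC_norm (x φ : ℝ) : ‖(x : ℂ) * exp (φ * I)‖ = |x| := by
  rw [norm_mul, Complex.norm_exp_ofReal_mul_I, mul_one, Complex.norm_real, Real.norm_eq_abs]

private lemma JC_ray (hf : Schl f) (hF : ∀ z ∈ ball (0 : ℂ) 1, F (f z) = z) {p : ℝ} (hp : 0 < p)
    (φ : ℝ) :
    ∫⁻ x in {x : ℝ | 1 / 8 < x ∧ (x : ℂ) * exp (φ * I) ∈ f '' ball 0 1},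
      ENNReal.ofReal (‖deriv F ((x : ℂ) * exp (φ * I))‖ ^ p) ≤ ∑' k : ℕ, JJ p f F k φ := by
  set S : ℕ → Set ℝ := fun k =>
    {r : ℝ | 0 < r ∧ (r : ℂ) * exp (φ * I) ∈ EE f ((1 / 2) ^ (k + 1)) ((1 / 2) ^ k)} with hS
  have hm : MeasurableSet {x : ℝ | 1 / 8 < x ∧ (x : ℂ) * exp (φ * I) ∈ f '' ball 0 1} :=
    (measurableSet_Ioi (a := (1 / 8 : ℝ))).inter (JC_meas hf φ)
  have hsub : {x : ℝ | 1 / 8 < x ∧ (x : ℂ) * exp (φ * I) ∈ f '' ball 0 1} ⊆ ⋃ k, S k := by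
    rintro x ⟨hx, hw⟩
    have hn : ‖(x : ℂ) * exp (φ * I)‖ = x := by
      rw [JC_norm, abs_of_pos (by linarith)]
    have hd := dd_pos hf hw
    have hle := dd_le hf ((x : ℂ) * exp (φ * I))
    rw [hn] at hle
    have h9 : 0 < 9 * x := by linarith
    obtain ⟨k, hk1, hk2⟩ := exists_nat_pow_near_of_lt_one
      (x := dd f ((x : ℂ) * exp (φ * I)) / (9 * x)) (y := (1 / 2 : ℝ)) (by positivity)
      (by rw [div_le_one h9]; linarith) (by norm_num) (by norm_num)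
    refine mem_iUnion.2 ⟨k, by linarith, hw, ?_, ?_, ?_⟩
    · rw [hn]; exact hx.le
    · rw [hn]; exact hk1
    · rw [hn]; exact hk2
  calc ∫⁻ x in {x : ℝ | 1 / 8 < x ∧ (x : ℂ) * exp (φ * I) ∈ f '' ball 0 1},
        ENNReal.ofReal (‖deriv F ((x : ℂ) * exp (φ * I))‖ ^ p)
      ≤ ∫⁻ x in {x : ℝ | 1 / 8 < x ∧ (x : ℂ) * exp (φ * I) ∈ f '' ball 0 1},
        ENNReal.ofReal ((oo F (x * exp (φ * I)) / dd f (x * exp (φ * I))) ^ p) := by
        refine setLIntegral_mono' hm fun x hx => ENNReal.ofReal_le_ofReal ?_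
        exact Real.rpow_le_rpow (norm_nonneg _) (geoA hf hF hx.2) hp.le
    _ ≤ ∫⁻ x in ⋃ k, S k,
        ENNReal.ofReal ((oo F (x * exp (φ * I)) / dd f (x * exp (φ * I))) ^ p) :=
        lintegral_mono_set hsub
    _ ≤ ∑' k : ℕ, JJ p f F k φ := lintegral_iUnion_le _ _

private lemma JC_mid (hf : Schl f) (hF : ∀ z ∈ ball (0 : ℂ) 1, F (f z) = z) {p : ℝ} (hp : 0 < p)
    (φ : ℝ) :
    ∫⁻ x in {x : ℝ | |x| ≤ 1 / 8 ∧ (x : ℂ) * exp (φ * I) ∈ f '' ball 0 1},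
      ENNReal.ofReal (‖deriv F ((x : ℂ) * exp (φ * I))‖ ^ p) < ⊤ := by
  have hc : MeasurableSet {x : ℝ | |x| ≤ 1 / 8} :=
    (isClosed_le continuous_abs continuous_const).measurableSet
  have hm : MeasurableSet {x : ℝ | |x| ≤ 1 / 8 ∧ (x : ℂ) * exp (φ * I) ∈ f '' ball 0 1} :=
    hc.inter (JC_meas hf φ)
  have hv : volume {x : ℝ | |x| ≤ 1 / 8 ∧ (x : ℂ) * exp (φ * I) ∈ f '' ball 0 1} < ⊤ := by
    refine lt_of_le_of_lt (measure_mono (t := Icc (-(1 / 8) : ℝ) (1 / 8)) ?_) ?_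
    · intro x hx
      exact abs_le.1 hx.1
    · rw [Real.volume_Icc]; exact ENNReal.ofReal_lt_top
  calc ∫⁻ x in {x : ℝ | |x| ≤ 1 / 8 ∧ (x : ℂ) * exp (φ * I) ∈ f '' ball 0 1},
        ENNReal.ofReal (‖deriv F ((x : ℂ) * exp (φ * I))‖ ^ p)
      ≤ ∫⁻ x in {x : ℝ | |x| ≤ 1 / 8 ∧ (x : ℂ) * exp (φ * I) ∈ f '' ball 0 1},
        ENNReal.ofReal ((8 : ℝ) ^ p) := by
        refine setLIntegral_mono' hm fun x hx => ENNReal.ofReal_le_ofReal ?_
        refine Real.rpow_le_rpow (norm_nonneg _) ?_ hp.le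
        have hd : 1 / 8 ≤ dd f ((x : ℂ) * exp (φ * I)) := by
          unfold dd
          rw [Metric.le_infDist (dd_zero hf).1]
          intro w₀ hw₀
          have h4 := quarter hf hw₀
          have h5 : ‖(x : ℂ) * exp (φ * I)‖ ≤ 1 / 8 := by rw [JC_norm]; exact hx.1
          rw [dist_eq_norm]
          have h6 := norm_sub_norm_le w₀ ((x : ℂ) * exp (φ * I))
          rw [norm_sub_rev] at h6
          linarith
        have ho := oo_pos hf hF hx.2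
        refine (geoA hf hF hx.2).trans ?_
        rw [div_le_iff₀ (by linarith)]
        linarith [ho.2]
    _ = ENNReal.ofReal ((8 : ℝ) ^ p) *
        volume {x : ℝ | |x| ≤ 1 / 8 ∧ (x : ℂ) * exp (φ * I) ∈ f '' ball 0 1} := by
        rw [setLIntegral_const]
    _ < ⊤ := ENNReal.mul_lt_top ENNReal.ofReal_lt_top hv

private lemma JC_dom (θ : ℝ) (x : ℝ) :
    (x : ℂ) ∈ rot θ f '' ball 0 1 ↔ (x : ℂ) * exp (θ * I) ∈ f '' ball 0 1 := by
  have he : exp (-(θ * I : ℂ)) * exp (θ * I) = 1 := by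
    rw [← Complex.exp_add]; simp
  have hn : ‖exp (θ * I : ℂ)‖ = 1 := Complex.norm_exp_ofReal_mul_I θ
  have hn' : ‖exp (-(θ * I : ℂ))‖ = 1 := by
    have := congrArg norm he
    rw [norm_mul, hn, mul_one, norm_one] at this
    exact this
  constructor
  · rintro ⟨z, hz, h⟩
    refine ⟨exp (θ * I) * z, ?_, ?_⟩
    · rw [mem_ball_zero_iff] at hz ⊢
      rw [norm_mul, hn, one_mul]; exact hz
    · rw [← h]
      unfold rot
      calc f (exp (θ * I) * z) = (exp (-(θ * I : ℂ)) * exp (θ * I)) * f (exp (θ * I) * z) := by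
            rw [he, one_mul]
        _ = _ := by ring
  · rintro ⟨z, hz, h⟩
    refine ⟨exp (-(θ * I)) * z, ?_, ?_⟩
    · rw [mem_ball_zero_iff] at hz ⊢
      rw [norm_mul, hn', one_mul]; exact hz
    · unfold rot
      have h1 : exp (θ * I : ℂ) * (exp (-(θ * I)) * z) = z := by
        calc exp (θ * I : ℂ) * (exp (-(θ * I)) * z) = (exp (-(θ * I : ℂ)) * exp (θ * I)) * z := by
              ring
          _ = z := by rw [he, one_mul]
      rw [h1, h]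
      calc exp (-(θ * I : ℂ)) * ((x : ℂ) * exp (θ * I)) =
            (exp (-(θ * I : ℂ)) * exp (θ * I)) * x := by ring
        _ = x := by rw [he, one_mul]

private lemma JC_der (θ : ℝ) (x : ℝ) :
    deriv (rot θ F) (x : ℂ) = deriv F ((x : ℂ) * exp (θ * I)) := by
  have he : exp (-(θ * I : ℂ)) * exp (θ * I) = 1 := by
    rw [← Complex.exp_add]; simp
  unfold rot
  rw [deriv_const_mul_field, deriv_comp_mul_left, smul_eq_mul, ← mul_assoc, he, one_mul, mul_comm]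

/-- PROOF: the domain of integration `{x | x ∈ rot θ f '' ball 0 1}` is `{x | x e^{iθ} ∈ f '' ball 0 1}` and
`deriv (rot θ F) x = deriv F (x e^{iθ})` there. For `|x| ≤ 1/8`: `dd f (x e^{iθ}) ≥ 1/8` (`quarter`: `dd f 0 ≥ 1/4`), so
`|F'| ≤ 8` (`geoA`) and this part of the integral is finite. For `|x| > 1/8` put `w = x e^{iθ} = r e^{iφ}`, `r = |x|`,
`φ = θ` or `θ + π`; `|F'(w)| ≤ oo F w / dd f w` (`geoA`) and `0 < dd f w / (9 |w|) ≤ 1` (`dd_le`), so `w` is in one of the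
`EE f (2^{-k-1}) (2^{-k})`. -/
theorem Ip_rot (hf : Schl f) (hF : ∀ z ∈ ball (0 : ℂ) 1, F (f z) = z) {p : ℝ} (hp : 0 < p)
    (θ : ℝ) (h : Ip p (rot θ f) (rot θ F) = ⊤) :
    ∑' k : ℕ, JJ p f F k θ = ⊤ ∨ ∑' k : ℕ, JJ p f F k (θ + Real.pi) = ⊤ := by
  by_contra hcon
  rw [not_or] at hcon
  obtain ⟨hA, hB⟩ := hcon
  have hD : {x : ℝ | (x : ℂ) ∈ rot θ f '' ball 0 1} =
      {x : ℝ | (x : ℂ) * exp (θ * I) ∈ f '' ball 0 1} := by
    ext x; exact JC_dom θ x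
  have hsub : {x : ℝ | (x : ℂ) * exp (θ * I) ∈ f '' ball 0 1} ⊆
      ({x : ℝ | |x| ≤ 1 / 8 ∧ (x : ℂ) * exp (θ * I) ∈ f '' ball 0 1} ∪
        {x : ℝ | 1 / 8 < x ∧ (x : ℂ) * exp (θ * I) ∈ f '' ball 0 1}) ∪
        {x : ℝ | x < -(1 / 8) ∧ (x : ℂ) * exp (θ * I) ∈ f '' ball 0 1} := by
    intro x hx
    rcases le_or_gt |x| (1 / 8) with h1 | h1
    · exact Or.inl (Or.inl ⟨h1, hx⟩)
    · rcases lt_abs.1 h1 with h2 | h2
      · exact Or.inl (Or.inr ⟨h2, hx⟩)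
      · exact Or.inr ⟨by linarith, hx⟩
  have hexp : exp (((θ + Real.pi : ℝ) : ℂ) * I) = - exp (θ * I) := by
    rw [Complex.ofReal_add, add_mul, Complex.exp_add, Complex.exp_pi_mul_I]; ring
  have hneg : ∫⁻ x in {x : ℝ | x < -(1 / 8) ∧ (x : ℂ) * exp (θ * I) ∈ f '' ball 0 1},
      ENNReal.ofReal (‖deriv F ((x : ℂ) * exp (θ * I))‖ ^ p) ≤
        ∑' k : ℕ, JJ p f F k (θ + Real.pi) := by
    have hm1 : MeasurableSet {x : ℝ | x < -(1 / 8) ∧ (x : ℂ) * exp (θ * I) ∈ f '' ball 0 1} :=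
      (measurableSet_Iio (a := (-(1 / 8) : ℝ))).inter (JC_meas hf θ)
    have hm2 : MeasurableSet {x : ℝ | 1 / 8 < x ∧
        (x : ℂ) * exp (((θ + Real.pi : ℝ) : ℂ) * I) ∈ f '' ball 0 1} :=
      (measurableSet_Ioi (a := (1 / 8 : ℝ))).inter (JC_meas hf (θ + Real.pi))
    refine le_trans (le_of_eq ?_) (JC_ray hf hF hp (θ + Real.pi))
    rw [← lintegral_indicator hm1, ← lintegral_indicator hm2,
      ← lintegral_neg_eq_self (μ := (volume : Measure ℝ))]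
    refine lintegral_congr fun x => ?_
    have hx : ((-x : ℝ) : ℂ) * exp (θ * I) = (x : ℂ) * exp (((θ + Real.pi : ℝ) : ℂ) * I) := by
      rw [hexp]; push_cast; ring
    by_cases hx1 : 1 / 8 < x ∧ (x : ℂ) * exp (((θ + Real.pi : ℝ) : ℂ) * I) ∈ f '' ball 0 1
    · have hx2 : -x ∈ {x : ℝ | x < -(1 / 8) ∧ (x : ℂ) * exp (θ * I) ∈ f '' ball 0 1} := by
        refine ⟨by linarith [hx1.1], ?_⟩
        rw [hx]; exact hx1.2
      rw [indicator_of_mem hx2, indicator_of_mem (show x ∈ {x : ℝ | 1 / 8 < x ∧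
        (x : ℂ) * exp (((θ + Real.pi : ℝ) : ℂ) * I) ∈ f '' ball 0 1} from hx1), hx]
    · have hx2 : -x ∉ {x : ℝ | x < -(1 / 8) ∧ (x : ℂ) * exp (θ * I) ∈ f '' ball 0 1} := by
        rintro ⟨h1, h2⟩
        refine hx1 ⟨by linarith, ?_⟩
        rw [← hx]; exact h2
      rw [indicator_of_notMem hx2, indicator_of_notMem (show x ∉ {x : ℝ | 1 / 8 < x ∧
        (x : ℂ) * exp (((θ + Real.pi : ℝ) : ℂ) * I) ∈ f '' ball 0 1} from hx1)]
  have hlt : Ip p (rot θ f) (rot θ F) < ⊤ := by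
    unfold Ip
    rw [hD]
    simp only [JC_der]
    refine lt_of_le_of_lt (lintegral_mono_set hsub) ?_
    refine lt_of_le_of_lt (lintegral_union_le _ _ _) ?_
    refine ENNReal.add_lt_top.2 ⟨lt_of_le_of_lt (lintegral_union_le _ _ _)
      (ENNReal.add_lt_top.2 ⟨JC_mid hf hF hp θ, ?_⟩), ?_⟩
    · exact lt_of_le_of_lt (JC_ray hf hF hp θ) (lt_top_iff_ne_top.2 hA)
    · exact lt_of_le_of_lt hneg (lt_top_iff_ne_top.2 hB)
  exact hlt.ne h

end H65K
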