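import Pool.Agent.H.MP_215299_an.KD.Defs

/-! # The pieces of the integral along a ray -/

set_option autoImplicit false

open Complex Metric Set MeasureTheory Filter Topology
open scoped ENNReal

namespace H65K

/-- The part of `f(𝔻)` outside `|w| < 1/8` where `dd f w / (9 |w|)` is in `(lo, hi]`. -/
def EE (f : ℂ → ℂ) (lo hi : ℝ) : Set ℂ :=
  {w | w ∈ f '' ball 0 1 ∧ 1 / 8 ≤ ‖w‖ ∧ lo < dd f w / (9 * ‖w‖) ∧ dd f w / (9 * ‖w‖) ≤ hi}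

/-- The integral of `(oo F / dd f)^p` along the part of the ray with direction `θ` in `EE f lo hi`. -/
noncomputable def JR (p : ℝ) (f F : ℂ → ℂ) (lo hi θ : ℝ) : ℝ≥0∞ :=
  ∫⁻ r in {r : ℝ | 0 < r ∧ (r : ℂ) * exp (θ * I) ∈ EE f lo hi},
    ENNReal.ofReal ((oo F (r * exp (θ * I)) / dd f (r * exp (θ * I))) ^ p)

/-- The pieces. -/
noncomputable def JJ (p : ℝ) (f F : ℂ → ℂ) (k : ℕ) (θ : ℝ) : ℝ≥0∞ :=
  JR p f F ((1 / 2) ^ (k + 1)) ((1 / 2) ^ k) θ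

/-- The enlarged pieces. -/
noncomputable def JS (p : ℝ) (f F : ℂ → ℂ) (k : ℕ) (θ : ℝ) : ℝ≥0∞ :=
  JR p f F ((1 / 2) ^ (k + 2)) (2 * (1 / 2) ^ k) θ

end H65K
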