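import Pool.Agent.H.MP_215299_an.KD.JA
import Pool.Agent.H.MP_215299_an.KD.JB
import Pool.Agent.H.MP_215299_an.KD.JC
import Pool.Agent.H.MP_215299_an.KD.Dyad

/-! # The exceptional directions -/

set_option autoImplicit false

open Complex Metric Set MeasureTheory Filter Topology
open scoped ENNReal

namespace H65K

theorem exceptional_directions {f F : ℂ → ℂ} (hf : Schl f)
    (hF : ∀ z ∈ ball (0 : ℂ) 1, F (f z) = z) {p : ℝ} (hp : 1 < p) (hp3 : p < 3) :
    dimH {θ : ℝ | Ip p (rot θ f) (rot θ F) = ⊤} ≤ ENNReal.ofReal ((p - 1) / 2) := by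
  -- the bound for every larger exponent
  have key : ∀ s : ℝ, (p - 1) / 2 < s → s ≤ p - 1 → s < 1 →
      dimH {θ : ℝ | Ip p (rot θ f) (rot θ F) = ⊤} ≤ ENNReal.ofReal s := by
    intro s hs1 hs2 hs3
    have hs0 : 0 < s := by linarith
    have h1 : dimH {θ : ℝ | ∑' k : ℕ, JJ p f F k θ = ⊤} ≤ ENNReal.ofReal s :=
      dyad (Js := JS p f F) (C := ENNReal.ofReal ((5 / 2) ^ p)) hs0 hs3 ENNReal.ofReal_ne_top
        (fun k θ φ h => JJ_le_JS hf hF (by linarith) k h)
        (fun a b => sum_JS hf hF hs1 hs2 hs0 hs3 a b)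
    have h2 : dimH ((IsometryEquiv.addRight Real.pi) ⁻¹' {θ : ℝ | ∑' k : ℕ, JJ p f F k θ = ⊤}) ≤
        ENNReal.ofReal s := by
      rw [IsometryEquiv.dimH_preimage]
      exact h1
    refine (dimH_mono (t := {θ : ℝ | ∑' k : ℕ, JJ p f F k θ = ⊤} ∪
      ((IsometryEquiv.addRight Real.pi) ⁻¹' {θ : ℝ | ∑' k : ℕ, JJ p f F k θ = ⊤})) ?_).trans ?_
    · intro θ hθ
      exact Ip_rot hf hF (by linarith) θ hθ
    · rw [dimH_union]
      exact max_le h1 h2
  refine ENNReal.le_of_forall_pos_le_add ?_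
  intro ε hε _
  have hε' : 0 < (ε : ℝ) := hε
  obtain ⟨s, hs⟩ : ∃ s, s = min ((p - 1) / 2 + ε) (((p - 1) / 2 + min (p - 1) 1) / 2) := ⟨_, rfl⟩
  have hm : (p - 1) / 2 < min (p - 1) 1 := lt_min (by linarith) (by linarith)
  have hm1 : min (p - 1) 1 ≤ p - 1 := min_le_left _ _
  have hm2 : min (p - 1) 1 ≤ 1 := min_le_right _ _
  have hs1 : (p - 1) / 2 < s := by
    rw [hs]
    exact lt_min (by linarith) (by linarith)
  have hs2 : s ≤ ((p - 1) / 2 + min (p - 1) 1) / 2 := by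
    rw [hs]
    exact min_le_right _ _
  have hs3 : s ≤ (p - 1) / 2 + ε := by
    rw [hs]
    exact min_le_left _ _
  refine (key s hs1 (by linarith) (by linarith)).trans ?_
  refine (ENNReal.ofReal_le_ofReal hs3).trans ?_
  rw [ENNReal.ofReal_add (by linarith) hε'.le, ENNReal.ofReal_coe_nnreal]

end H65K
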