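import Pool.Agent.H.MP_215299_an.KD.Bieb
import Pool.Agent.H.MP_215299_an.KD.Ne

/-! # Koebe's quarter theorem -/

set_option autoImplicit false

open Complex Metric Set MeasureTheory Filter Topology

namespace H65K

/-- Omitted values. PROOF: `w ↦ w₀ w / (w₀ - w)` is injective and has value `0` and derivative `1` at `0`;
`w₀ ≠ 0` because `0 = h 0`. -/
theorem Schl.omit {h : ℂ → ℂ} (hh : Schl h) {w₀ : ℂ} (hw : w₀ ∉ h '' ball 0 1) :
    Schl (fun z => w₀ * h z / (w₀ - h z)) ∧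
      deriv (deriv (fun z => w₀ * h z / (w₀ - h z))) 0 = deriv (deriv h) 0 + 2 / w₀ := by
  have h0 : (0 : ℂ) ∈ ball (0 : ℂ) 1 := mem_ball_self one_pos
  have hw0 : w₀ ≠ 0 := fun h1 => hw ⟨0, h0, by rw [hh.zero, h1]⟩
  have hne : ∀ z ∈ ball (0 : ℂ) 1, w₀ - h z ≠ 0 := fun z hz h1 =>
    hw ⟨z, hz, (sub_eq_zero.1 h1).symm⟩
  have hd : ∀ z ∈ ball (0 : ℂ) 1, HasDerivAt h (deriv h z) z := fun z hz =>
    (hh.diff.differentiableAt (isOpen_ball.mem_nhds hz)).hasDerivAt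
  have hg : ∀ z ∈ ball (0 : ℂ) 1, HasDerivAt (fun z => w₀ * h z / (w₀ - h z))
      (w₀ ^ 2 * deriv h z / (w₀ - h z) ^ 2) z := by
    intro z hz
    have h1 := ((hd z hz).const_mul w₀).div ((hasDerivAt_const z w₀).sub (hd z hz)) (hne z hz)
    refine h1.congr_deriv ?_
    congr 1
    simp only [Pi.sub_apply]
    ring
  have hdh : DifferentiableOn ℂ (deriv h) (ball 0 1) := hh.diff.deriv isOpen_ball
  have hd2 : HasDerivAt (deriv h) (deriv (deriv h) 0) 0 :=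
    (hdh.differentiableAt (isOpen_ball.mem_nhds h0)).hasDerivAt
  refine ⟨⟨fun z hz => (hg z hz).differentiableAt.differentiableWithinAt, ?_, ?_, ?_⟩, ?_⟩
  · intro a ha b hb hab
    have h1 := (div_eq_div_iff (hne a ha) (hne b hb)).1 hab
    have h2 : w₀ * w₀ * (h a - h b) = 0 := by linear_combination h1
    have h3 := (mul_eq_zero.1 h2).resolve_left (mul_ne_zero hw0 hw0)
    exact hh.inj ha hb (sub_eq_zero.1 h3)
  · show w₀ * h 0 / (w₀ - h 0) = 0
    rw [hh.zero, mul_zero, zero_div]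
  · rw [(hg 0 h0).deriv, hh.one, hh.zero, sub_zero, mul_one, div_self (pow_ne_zero _ hw0)]
  · have he : deriv (fun z => w₀ * h z / (w₀ - h z)) =ᶠ[𝓝 0]
        fun z => w₀ ^ 2 * deriv h z / (w₀ - h z) ^ 2 := by
      filter_upwards [isOpen_ball.mem_nhds h0] with z hz
      exact (hg z hz).deriv
    rw [he.deriv_eq]
    have h1 := (hd2.const_mul (w₀ ^ 2)).div (((hasDerivAt_const (0 : ℂ) w₀).sub (hd 0 h0)).pow 2)
      (pow_ne_zero 2 (hne 0 h0))
    refine (h1.congr_deriv ?_).deriv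
    simp only [Pi.sub_apply, Pi.pow_apply]
    rw [hh.one, hh.zero]
    field_simp
    ring

/-- Koebe's quarter theorem. PROOF: `bieb` for `h` and for the function of `Schl.omit`: `|2 / w₀| ≤ 8`. -/
theorem quarter {h : ℂ → ℂ} (hh : Schl h) {w₀ : ℂ} (hw : w₀ ∉ h '' ball 0 1) : 1 / 4 ≤ ‖w₀‖ := by
  have h0 : (0 : ℂ) ∈ ball (0 : ℂ) 1 := mem_ball_self one_pos
  have hw0 : w₀ ≠ 0 := fun h1 => hw ⟨0, h0, by rw [hh.zero, h1]⟩
  obtain ⟨h1, h2⟩ := hh.omit hw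
  have h3 := bieb h1
  have h4 := bieb hh
  rw [h2] at h3
  have h5 : ‖2 / w₀‖ ≤ 8 := by
    have e : 2 / w₀ = (deriv (deriv h) 0 + 2 / w₀) - deriv (deriv h) 0 := by ring
    rw [e]
    exact (norm_sub_le _ _).trans (by linarith)
  rw [norm_div, Complex.norm_ofNat, div_le_iff₀ (norm_pos_iff.2 hw0)] at h5
  linarith

/-- the automorphism of the disc -/
private noncomputable def Quar_phi (z ζ : ℂ) : ℂ := (ζ + z) / (1 + (starRingEnd ℂ) z * ζ)

private theorem Quar_den {z ζ : ℂ} (hz : ‖z‖ < 1) (hζ : ‖ζ‖ < 1) :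
    1 + (starRingEnd ℂ) z * ζ ≠ 0 := by
  intro h1
  have h2 : (starRingEnd ℂ) z * ζ = -1 := by linear_combination h1
  have h3 : ‖(starRingEnd ℂ) z * ζ‖ = 1 := by rw [h2, norm_neg, norm_one]
  rw [norm_mul, Complex.norm_conj] at h3
  have h4 := mul_lt_one_of_nonneg_of_lt_one_left (norm_nonneg z) hz hζ.le
  linarith

private theorem Quar_map {z ζ : ℂ} (hz : ‖z‖ < 1) (hζ : ‖ζ‖ < 1) : ‖Quar_phi z ζ‖ < 1 := by
  unfold Quar_phi
  rw [norm_div, div_lt_one (norm_pos_iff.2 (Quar_den hz hζ))]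
  have h1 : ‖ζ + z‖ ^ 2 < ‖1 + (starRingEnd ℂ) z * ζ‖ ^ 2 := by
    have e1 : ‖1 + (starRingEnd ℂ) z * ζ‖ ^ 2 - ‖ζ + z‖ ^ 2 = (1 - ‖z‖ ^ 2) * (1 - ‖ζ‖ ^ 2) := by
      simp only [← Complex.normSq_eq_norm_sq, Complex.normSq_apply, Complex.add_re,
        Complex.add_im, Complex.mul_re, Complex.mul_im, Complex.conj_re, Complex.conj_im,
        Complex.one_re, Complex.one_im]
      ring
    have h2 : 0 < 1 - ‖z‖ ^ 2 := by nlinarith [norm_nonneg z]
    have h3 : 0 < 1 - ‖ζ‖ ^ 2 := by nlinarith [norm_nonneg ζ]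
    have h4 := mul_pos h2 h3
    linarith
  exact lt_of_pow_lt_pow_left₀ 2 (norm_nonneg _) h1

private theorem Quar_inj {z ζ ξ : ℂ} (hz : ‖z‖ < 1) (hζ : ‖ζ‖ < 1) (hξ : ‖ξ‖ < 1)
    (h : Quar_phi z ζ = Quar_phi z ξ) : ζ = ξ := by
  unfold Quar_phi at h
  have h1 := (div_eq_div_iff (Quar_den hz hζ) (Quar_den hz hξ)).1 h
  have h2 : (1 - z * (starRingEnd ℂ) z) * (ζ - ξ) = 0 := by linear_combination h1
  rcases mul_eq_zero.1 h2 with h3 | h3
  · exfalso
    rw [Complex.mul_conj, Complex.normSq_eq_norm_sq] at h3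
    have h4 : ((1 - ‖z‖ ^ 2 : ℝ) : ℂ) = 0 := by push_cast; exact_mod_cast h3
    have h5 : (1 - ‖z‖ ^ 2 : ℝ) = 0 := by exact_mod_cast h4
    nlinarith [norm_nonneg z]
  · exact sub_eq_zero.1 h3

private theorem Quar_der {z ζ : ℂ} (hz : ‖z‖ < 1) (hζ : ‖ζ‖ < 1) :
    HasDerivAt (Quar_phi z) ((1 - z * (starRingEnd ℂ) z) / (1 + (starRingEnd ℂ) z * ζ) ^ 2) ζ := by
  have h1 := ((hasDerivAt_id ζ).add_const z).div
    (((hasDerivAt_id ζ).const_mul ((starRingEnd ℂ) z)).const_add 1) (Quar_den hz hζ)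
  refine h1.congr_deriv ?_
  congr 1
  simp only [id]
  ring

/-- PROOF: `H ζ = (h ((ζ + z) / (1 + conj z ζ)) - h z) / ((1 - |z|²) h'(z))` is in `Schl`
(`h'(z) ≠ 0`: `deriv_inv`; `ζ ↦ (ζ + z) / (1 + conj z ζ)` is an injective map of the disc into itself with
derivative `1 - |z|²` at `0`), and has the same image up to the affine map; `quarter`. -/
theorem shift {h : ℂ → ℂ} (hd : DifferentiableOn ℂ h (ball 0 1)) (hi : InjOn h (ball 0 1))
    {z : ℂ} (hz : z ∈ ball (0 : ℂ) 1) :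
    ball (h z) ((1 - ‖z‖ ^ 2) * ‖deriv h z‖ / 4) ⊆ h '' ball 0 1 := by
  have hz1 : ‖z‖ < 1 := by simpa using hz
  obtain ⟨F, hF⟩ : ∃ F : ℂ → ℂ, ∀ z ∈ ball (0 : ℂ) 1, F (h z) = z :=
    ⟨Function.invFunOn h (ball 0 1), fun z hz => hi.leftInvOn_invFunOn hz⟩
  have hne := (deriv_inv isOpen_ball hd hi hF hz).1
  obtain ⟨c, hc⟩ : ∃ c : ℂ, c = (1 - z * (starRingEnd ℂ) z) * deriv h z := ⟨_, rfl⟩
  have hcz : (1 - z * (starRingEnd ℂ) z) = ((1 - ‖z‖ ^ 2 : ℝ) : ℂ) := by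
    rw [Complex.mul_conj, Complex.normSq_eq_norm_sq]
    push_cast
    ring
  have hpos : 0 < 1 - ‖z‖ ^ 2 := by nlinarith [norm_nonneg z]
  have hcn : ‖c‖ = (1 - ‖z‖ ^ 2) * ‖deriv h z‖ := by
    rw [hc, norm_mul, hcz, Complex.norm_real, Real.norm_of_nonneg hpos.le]
  have hc0 : c ≠ 0 := by
    rw [← norm_pos_iff, hcn]
    exact mul_pos hpos (norm_pos_iff.2 hne)
  have hphi0 : Quar_phi z 0 = z := by
    unfold Quar_phi
    rw [mul_zero, add_zero, div_one, zero_add]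
  have hH : Schl (fun ζ => (h (Quar_phi z ζ) - h z) / c) := by
    have hder : ∀ ζ ∈ ball (0 : ℂ) 1, HasDerivAt (fun ζ => (h (Quar_phi z ζ) - h z) / c)
        (deriv h (Quar_phi z ζ) *
          ((1 - z * (starRingEnd ℂ) z) / (1 + (starRingEnd ℂ) z * ζ) ^ 2) / c) ζ := by
      intro ζ hζ
      have hζ1 : ‖ζ‖ < 1 := by simpa using hζ
      have h1 : HasDerivAt h (deriv h (Quar_phi z ζ)) (Quar_phi z ζ) :=
        (hd.differentiableAt (isOpen_ball.mem_nhds (by simpa using Quar_map hz1 hζ1))).hasDerivAt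
      exact ((h1.comp ζ (Quar_der hz1 hζ1)).sub_const (h z)).div_const c
    refine ⟨fun ζ hζ => (hder ζ hζ).differentiableAt.differentiableWithinAt, ?_, ?_, ?_⟩
    · intro a ha b hb hab
      have ha1 : ‖a‖ < 1 := by simpa using ha
      have hb1 : ‖b‖ < 1 := by simpa using hb
      have h1 : h (Quar_phi z a) - h z = h (Quar_phi z b) - h z := (div_left_inj' hc0).1 hab
      exact Quar_inj hz1 ha1 hb1 (hi (by simpa using Quar_map hz1 ha1)
        (by simpa using Quar_map hz1 hb1) (sub_left_injective h1))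
    · show (h (Quar_phi z 0) - h z) / c = 0
      rw [hphi0, sub_self, zero_div]
    · rw [(hder 0 (mem_ball_self one_pos)).deriv, hphi0, mul_zero, add_zero, one_pow, div_one,
        mul_comm, ← hc, div_self hc0]
  intro w hw
  by_contra hn
  have h1 : (w - h z) / c ∉ (fun ζ => (h (Quar_phi z ζ) - h z) / c) '' ball 0 1 := by
    rintro ⟨ζ, hζ, h2⟩
    have hζ1 : ‖ζ‖ < 1 := by simpa using hζ
    have h3 : h (Quar_phi z ζ) - h z = w - h z := (div_left_inj' hc0).1 h2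
    exact hn ⟨Quar_phi z ζ, by simpa using Quar_map hz1 hζ1, sub_left_injective h3⟩
  have h2 := quarter hH h1
  rw [mem_ball, dist_eq_norm, ← hcn] at hw
  rw [norm_div, le_div_iff₀ (norm_pos_iff.2 hc0)] at h2
  linarith

end H65K
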